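import Pool.Agent.NH48.SD.Piece

/-! # Base games: perfect vectors, an integral solution and small value -/

set_option autoImplicit false

open scoped Classical
open Finset

namespace Pool.Agent.NH48.SD

open Pool.Agent.NH48.SC

/-- a base game: right vertices `WB` with neighbours indexed by `IB`, exactly `d`-to-1 constraint
maps, vectors that satisfy all constraints, and an integral solution supported by the vectors; the
labels `dum` (dummies) have zero vectors -/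
structure Base (d : ℕ) where
  VB : Type
  WB : Type
  IB : Type
  LC : Type
  RC : Type
  DV : Type
  iVB : Fintype VB
  iWB : Fintype WB
  iIB : Fintype IB
  iLC : Fintype LC
  iRC : Fintype RC
  iDV : Fintype DV
  w0 : WB
  b0 : IB
  nb : WB → IB → VB
  π : WB → IB → RC → LC
  dum : RC → Prop
  z : DV → ℝ
  x : WB → RC → DV → ℝ
  y : VB → LC → DV → ℝ
  X : LC → ℤ
  Y : RC → ℤ
  fib : ∀ w b l, (univ.filter fun c => π w b c = l).card = d
  zz : z ⬝ᵥ z = 1
  xs : ∀ w, ∑ c, x w c = z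
  ys : ∀ v, ∑ l, y v l = z
  xo : ∀ w c c', c ≠ c' → x w c ⬝ᵥ x w c' = 0
  yo : ∀ v l l', l ≠ l' → y v l ⬝ᵥ y v l' = 0
  xd : ∀ w c, dum c → x w c = 0
  xy : ∀ w b l, ∑ c with π w b c = l, x w c = y (nb w b) l
  Ys : ∑ c, Y c = 1
  XY : ∀ w b l, ∑ c with π w b c = l, Y c = X l
  xY : ∀ w c, x w c = 0 → Y c = 0
  yX : ∀ v l, y v l = 0 → X l = 0

attribute [instance] Base.iVB Base.iWB Base.iIB Base.iLC Base.iRC Base.iDV

/-- the value of the base game, without the dummies, is at most `δ` -/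
def Base.Val {d : ℕ} (G : Base d) (δ : ℝ) : Prop :=
  ∀ (A : G.WB → G.RC) (L : G.VB → G.LC),
    ((univ.filter fun x : G.WB × G.IB =>
      ¬ G.dum (A x.1) ∧ G.π x.1 x.2 (A x.1) = L (G.nb x.1 x.2)).card : ℝ) ≤
      δ * Fintype.card (G.WB × G.IB)

section emb

variable {D1 D2 : Type} [Fintype D1] [Fintype D2]

/-- the scaling factor -/
noncomputable def eta : ℝ := Real.sqrt (1 / 2)

theorem eta_sq : eta * eta = 1 / 2 := Real.mul_self_sqrt (by norm_num)

theorem eta_pos : 0 < eta := Real.sqrt_pos.2 (by norm_num)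

/-- the first summand -/
noncomputable def emb1 (D1 D2 : Type) : (D1 → ℝ) →ₗ[ℝ] (D1 ⊕ D2 → ℝ) where
  toFun v := Sum.elim (eta • v) 0
  map_add' v v' := by
    funext x
    rcases x with x | x
    · simp [mul_add]
    · simp
  map_smul' c v := by
    funext x
    rcases x with x | x
    · simp only [Sum.elim_inl, Pi.smul_apply, smul_eq_mul, RingHom.id_apply]
      ring
    · simp

/-- the second summand -/
noncomputable def emb2 (D1 D2 : Type) : (D2 → ℝ) →ₗ[ℝ] (D1 ⊕ D2 → ℝ) where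
  toFun v := Sum.elim 0 (eta • v)
  map_add' v v' := by
    funext x
    rcases x with x | x
    · simp
    · simp [mul_add]
  map_smul' c v := by
    funext x
    rcases x with x | x
    · simp
    · simp only [Sum.elim_inr, Pi.smul_apply, smul_eq_mul, RingHom.id_apply]
      ring

theorem emb11 (v v' : D1 → ℝ) : emb1 D1 D2 v ⬝ᵥ emb1 D1 D2 v' = 1 / 2 * (v ⬝ᵥ v') := by
  show Sum.elim (eta • v) (0 : D2 → ℝ) ⬝ᵥ Sum.elim (eta • v') (0 : D2 → ℝ) = _
  unfold dotProduct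
  rw [Fintype.sum_sum_type, Finset.mul_sum]
  simp only [Sum.elim_inl, Sum.elim_inr, Pi.smul_apply, smul_eq_mul, Pi.zero_apply, mul_zero,
    sum_const_zero, add_zero]
  refine sum_congr rfl fun i _ => ?_
  rw [← eta_sq]
  ring

theorem emb22 (v v' : D2 → ℝ) : emb2 D1 D2 v ⬝ᵥ emb2 D1 D2 v' = 1 / 2 * (v ⬝ᵥ v') := by
  show Sum.elim (0 : D1 → ℝ) (eta • v) ⬝ᵥ Sum.elim (0 : D1 → ℝ) (eta • v') = _
  unfold dotProduct
  rw [Fintype.sum_sum_type, Finset.mul_sum]
  simp only [Sum.elim_inl, Sum.elim_inr, Pi.smul_apply, smul_eq_mul, Pi.zero_apply, mul_zero,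
    sum_const_zero, zero_add]
  refine sum_congr rfl fun i _ => ?_
  rw [← eta_sq]
  ring

theorem emb12 (v : D1 → ℝ) (v' : D2 → ℝ) : emb1 D1 D2 v ⬝ᵥ emb2 D1 D2 v' = 0 := by
  show Sum.elim (eta • v) (0 : D2 → ℝ) ⬝ᵥ Sum.elim (0 : D1 → ℝ) (eta • v') = _
  unfold dotProduct
  rw [Fintype.sum_sum_type]
  simp

theorem emb1_eq_zero {v : D1 → ℝ} (h : emb1 D1 D2 v = 0) : v = 0 := by
  funext i
  have h1 := congrFun h (Sum.inl i)
  have h2 : eta * v i = 0 := h1
  exact (mul_eq_zero.1 h2).resolve_left eta_pos.ne'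

theorem emb2_eq_zero {v : D2 → ℝ} (h : emb2 D1 D2 v = 0) : v = 0 := by
  funext i
  have h1 := congrFun h (Sum.inr i)
  have h2 : eta * v i = 0 := h1
  exact (mul_eq_zero.1 h2).resolve_left eta_pos.ne'

end emb

section

variable {p1 p2 k1 k2 : ℕ} [Fact p1.Prime] [Fact p2.Prime]

/-- the size of a fibre -/
noncomputable def fs : LB p1 k1 ⊕ LB p2 k2 → ℕ
  | Sum.inl l => (univ.filter fun c : XX p1 k1 => nrm c = l).card
  | Sum.inr l => (univ.filter fun c : XX p2 k2 => nrm c = l).card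

theorem fs_le (l : LB p1 k1 ⊕ LB p2 k2) : fs l ≤ 2 := by
  rcases l with l | l
  · exact card_nrm_le l
  · exact card_nrm_le l

/-- right labels -/
abbrev RR (p1 p2 k1 k2 d : ℕ) [Fact p1.Prime] [Fact p2.Prime] : Type :=
  (XX p1 k1 ⊕ XX p2 k2) ⊕ (Σ l : LB p1 k1 ⊕ LB p2 k2, Fin (d - fs l))

/-- the constraint maps -/
def pim (d : ℕ) (b : XX p1 k1 × XX p2 k2) : RR p1 p2 k1 k2 d → LB p1 k1 ⊕ LB p2 k2
  | Sum.inl (Sum.inl a) => Sum.inl (nrm (a - b.1))
  | Sum.inl (Sum.inr a) => Sum.inr (nrm (a - b.2))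
  | Sum.inr s => s.1

theorem sum_pim_inl {K : Type} [AddCommMonoid K] (d : ℕ) (b : XX p1 k1 × XX p2 k2)
    (l : LB p1 k1) (f : RR p1 p2 k1 k2 d → K)
    [DecidablePred fun c : RR p1 p2 k1 k2 d => pim d b c = Sum.inl l] :
    ∑ c with pim d b c = Sum.inl l, f c = ∑ a with nrm (a - b.1) = l, f (Sum.inl (Sum.inl a)) +
      ∑ j : Fin (d - fs (Sum.inl l : LB p1 k1 ⊕ LB p2 k2)), f (Sum.inr ⟨Sum.inl l, j⟩) := by
  rw [sum_filter, Fintype.sum_sum_type, Fintype.sum_sum_type, Fintype.sum_sigma]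
  have h1 : ∑ a : XX p2 k2, (if pim d b (Sum.inl (Sum.inr a)) = Sum.inl l then
      f (Sum.inl (Sum.inr a)) else 0) = 0 := sum_eq_zero fun a _ => if_neg (by simp [pim])
  rw [h1, add_zero]
  congr 1
  · rw [sum_filter]
    refine sum_congr rfl fun a _ => ?_
    simp only [pim, Sum.inl.injEq]
  · rw [Finset.sum_eq_single (Sum.inl l)]
    · refine sum_congr rfl fun j _ => ?_
      exact if_pos rfl
    · intro l' _ hl'
      refine sum_eq_zero fun j _ => if_neg ?_
      exact hl'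
    · intro h
      exact absurd (mem_univ _) h

theorem sum_pim_inr {K : Type} [AddCommMonoid K] (d : ℕ) (b : XX p1 k1 × XX p2 k2)
    (l : LB p2 k2) (f : RR p1 p2 k1 k2 d → K)
    [DecidablePred fun c : RR p1 p2 k1 k2 d => pim d b c = Sum.inr l] :
    ∑ c with pim d b c = Sum.inr l, f c = ∑ a with nrm (a - b.2) = l, f (Sum.inl (Sum.inr a)) +
      ∑ j : Fin (d - fs (Sum.inr l : LB p1 k1 ⊕ LB p2 k2)), f (Sum.inr ⟨Sum.inr l, j⟩) := by
  rw [sum_filter, Fintype.sum_sum_type, Fintype.sum_sum_type, Fintype.sum_sigma]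
  have h1 : ∑ a : XX p1 k1, (if pim d b (Sum.inl (Sum.inl a)) = Sum.inr l then
      f (Sum.inl (Sum.inl a)) else 0) = 0 := sum_eq_zero fun a _ => if_neg (by simp [pim])
  rw [h1, zero_add]
  congr 1
  · rw [sum_filter]
    refine sum_congr rfl fun a _ => ?_
    simp only [pim, Sum.inr.injEq]
  · rw [Finset.sum_eq_single (Sum.inr l)]
    · refine sum_congr rfl fun j _ => ?_
      exact if_pos rfl
    · intro l' _ hl'
      refine sum_eq_zero fun j _ => if_neg ?_
      exact hl'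
    · intro h
      exact absurd (mem_univ _) h

theorem card_shift {q k : ℕ} [Fact q.Prime] (b : XX q k) (l : LB q k) :
    (univ.filter fun a : XX q k => nrm (a - b) = l).card =
      (univ.filter fun c : XX q k => nrm c = l).card := by
  apply Finset.card_bij (fun a _ => a - b)
  · intro a ha
    rw [mem_filter] at ha ⊢
    exact ⟨mem_univ _, ha.2⟩
  · intro a _ a' _ h
    exact sub_left_injective h
  · intro c hc
    rw [mem_filter] at hc
    refine ⟨c + b, ?_, ?_⟩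
    · rw [mem_filter, add_sub_cancel_right]
      exact ⟨mem_univ _, hc.2⟩
    · rw [add_sub_cancel_right]

theorem card_pim (d : ℕ) (hd : 2 ≤ d) (b : XX p1 k1 × XX p2 k2) (l : LB p1 k1 ⊕ LB p2 k2)
    [DecidablePred fun c : RR p1 p2 k1 k2 d => pim d b c = l] :
    (univ.filter fun c : RR p1 p2 k1 k2 d => pim d b c = l).card = d := by
  have h2 := fs_le l
  rcases l with l | l
  · rw [card_eq_sum_ones, sum_pim_inl, ← card_eq_sum_ones, card_shift, sum_const, card_univ,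
      Fintype.card_fin, smul_eq_mul, mul_one]
    have h3 : fs (Sum.inl l : LB p1 k1 ⊕ LB p2 k2) =
      (univ.filter fun c : XX p1 k1 => nrm c = l).card := rfl
    omega
  · rw [card_eq_sum_ones, sum_pim_inr, ← card_eq_sum_ones, card_shift, sum_const, card_univ,
      Fintype.card_fin, smul_eq_mul, mul_one]
    have h3 : fs (Sum.inr l : LB p1 k1 ⊕ LB p2 k2) =
      (univ.filter fun c : XX p2 k2 => nrm c = l).card := rfl
    omega

/-- the vectors of the right labels -/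
noncomputable def xvec (d : ℕ) (w : WQ p1 k1 × WQ p2 k2) : RR p1 p2 k1 k2 d →
    ((XX p1 k1 × ZMod p1) ⊕ (XX p2 k2 × ZMod p2)) → ℝ
  | Sum.inl (Sum.inl a) => emb1 _ _ (xv (w.1.1.1 + tw w.1.1.2 a))
  | Sum.inl (Sum.inr a) => emb2 _ _ (xv (w.2.1.1 + tw w.2.1.2 a))
  | Sum.inr _ => 0

/-- the vectors of the left labels -/
noncomputable def yvec (v : TT p1 k1 × TT p2 k2) : LB p1 k1 ⊕ LB p2 k2 →
    ((XX p1 k1 × ZMod p1) ⊕ (XX p2 k2 × ZMod p2)) → ℝ
  | Sum.inl l => emb1 _ _ (yv v.1 l)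
  | Sum.inr l => emb2 _ _ (yv v.2 l)

/-- the integral weights of the right labels -/
def Yint (d : ℕ) (u u' : ℤ) : RR p1 p2 k1 k2 d → ℤ
  | Sum.inl (Sum.inl _) => u
  | Sum.inl (Sum.inr _) => u'
  | Sum.inr _ => 0

/-- the integral weights of the left labels -/
noncomputable def Xint (u u' : ℤ) : LB p1 k1 ⊕ LB p2 k2 → ℤ
  | Sum.inl l => (univ.filter fun c : XX p1 k1 => nrm c = l).card * u
  | Sum.inr l => (univ.filter fun c : XX p2 k2 => nrm c = l).card * u'

/-- the union of two dihedral games -/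
noncomputable def theBase (p1 p2 k1 k2 d : ℕ) [Fact p1.Prime] [Fact p2.Prime] (hd : 2 ≤ d)
    (u u' : ℤ) (huu : (p1 ^ k1 : ℤ) * u + (p2 ^ k2 : ℤ) * u' = 1) : Base d where
  VB := TT p1 k1 × TT p2 k2
  WB := WQ p1 k1 × WQ p2 k2
  IB := XX p1 k1 × XX p2 k2
  LC := LB p1 k1 ⊕ LB p2 k2
  RC := RR p1 p2 k1 k2 d
  DV := (XX p1 k1 × ZMod p1) ⊕ (XX p2 k2 × ZMod p2)
  iVB := inferInstance
  iWB := inferInstance
  iIB := inferInstance
  iLC := inferInstance
  iRC := inferInstance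
  iDV := inferInstance
  w0 := (⟨rep 0, rep_rep 0⟩, ⟨rep 0, rep_rep 0⟩)
  b0 := (0, 0)
  nb w b := (w.1.1.1 + tw w.1.1.2 b.1, w.2.1.1 + tw w.2.1.2 b.2)
  π _ b := pim d b
  dum c := ∃ s, c = Sum.inr s
  z := emb1 _ _ (zv p1 k1) + emb2 _ _ (zv p2 k2)
  x := xvec d
  y := yvec
  X := Xint u u'
  Y := Yint d u u'
  fib _ b l := @card_pim _ _ _ _ _ _ d hd b l (fun _ => Classical.propDecidable _)
  zz := by
    rw [add_dotProduct, dotProduct_add, dotProduct_add, emb11, emb12, emb22, zv_unit, zv_unit,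
      dotProduct_comm, emb12]
    norm_num
  xs w := by
    rw [Fintype.sum_sum_type, Fintype.sum_sum_type]
    simp only [xvec]
    rw [← map_sum, ← map_sum, xv_sum, xv_sum, sum_const_zero, add_zero]
  ys v := by
    rw [Fintype.sum_sum_type]
    simp only [yvec]
    rw [← map_sum, ← map_sum, yv_sum, yv_sum]
  xo w := by
    rintro ((a | a) | a) ((b | b) | b) hne
    · simp only [xvec]
      rw [emb11, xv_orth _ _ _ _ fun h => hne (by rw [h]), mul_zero]
    · exact emb12 _ _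
    · exact dotProduct_zero _
    · simp only [xvec]
      rw [dotProduct_comm]
      exact emb12 _ _
    · simp only [xvec]
      rw [emb22, xv_orth _ _ _ _ fun h => hne (by rw [h]), mul_zero]
    · exact dotProduct_zero _
    · exact zero_dotProduct _
    · exact zero_dotProduct _
    · exact zero_dotProduct _
  yo v := by
    rintro (a | a) (b | b) hne
    · simp only [yvec]
      rw [emb11, yv_orth _ _ _ fun h => hne (by rw [h]), mul_zero]
    · exact emb12 _ _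
    · simp only [yvec]
      rw [dotProduct_comm]
      exact emb12 _ _
    · simp only [yvec]
      rw [emb22, yv_orth _ _ _ fun h => hne (by rw [h]), mul_zero]
  xd w c := by
    rintro ⟨s, rfl⟩
    rfl
  xy w b l := by
    rcases l with l | l
    · rw [sum_pim_inl]
      simp only [xvec, yvec, sum_const_zero, add_zero]
      rw [← map_sum, sum_fib']
    · rw [sum_pim_inr]
      simp only [xvec, yvec, sum_const_zero, add_zero]
      rw [← map_sum, sum_fib']
  Ys := by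
    rw [Fintype.sum_sum_type, Fintype.sum_sum_type]
    simp only [Yint, sum_const, sum_const_zero, add_zero, card_univ, cardX_pow, nsmul_eq_mul]
    push_cast
    linarith
  XY w b l := by
    rcases l with l | l
    · rw [sum_pim_inl]
      simp only [Xint, Yint, sum_const, mul_zero, add_zero, card_shift, nsmul_eq_mul]
    · rw [sum_pim_inr]
      simp only [Xint, Yint, sum_const, mul_zero, add_zero, card_shift, nsmul_eq_mul]
  xY w c := by
    rcases c with (c | c) | c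
    · intro h
      exact absurd (emb1_eq_zero h) (xv_ne _)
    · intro h
      exact absurd (emb2_eq_zero h) (xv_ne _)
    · intro _
      rfl
  yX v l := by
    rcases l with l | l
    · intro h
      exact absurd (emb1_eq_zero h) (yv_ne _ _)
    · intro h
      exact absurd (emb2_eq_zero h) (yv_ne _ _)

end

theorem card_four {A B C D : Type} [Fintype A] [Fintype B] [Fintype C] [Fintype D]
    (P : A → B → C → D → Prop) (δ : ℝ)
    [DecidablePred fun x : (A × B) × (C × D) => P x.1.1 x.1.2 x.2.1 x.2.2]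
    [∀ b d, DecidablePred fun x : A × C => P x.1 b x.2 d]
    (h : ∀ b d, ((univ.filter fun x : A × C => P x.1 b x.2 d).card : ℝ) ≤
      δ * Fintype.card (A × C)) :
    ((univ.filter fun x : (A × B) × (C × D) => P x.1.1 x.1.2 x.2.1 x.2.2).card : ℝ) ≤
      δ * Fintype.card ((A × B) × (C × D)) := by
  have e1 : ((univ.filter fun x : (A × B) × (C × D) => P x.1.1 x.1.2 x.2.1 x.2.2).card : ℝ) =
      ∑ y : B × D, ((univ.filter fun x : A × C => P x.1 y.1 x.2 y.2).card : ℝ) := by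
    simp only [card_filter]
    push_cast
    rw [← Fintype.sum_prod_type_right
      (f := fun z : (A × C) × (B × D) => if P z.1.1 z.2.1 z.1.2 z.2.2 then (1 : ℝ) else 0)]
    refine Fintype.sum_equiv (Equiv.prodProdProdComm A B C D) _ _ fun x => ?_
    by_cases hP : P x.1.1 x.1.2 x.2.1 x.2.2
    · exact (if_pos hP).trans (if_pos hP).symm
    · exact (if_neg hP).trans (if_neg hP).symm
  rw [e1]
  refine (sum_le_sum fun y _ => h y.1 y.2).trans (le_of_eq ?_)
  rw [sum_const, card_univ, nsmul_eq_mul]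
  simp only [Fintype.card_prod]
  push_cast
  ring

theorem card_four' {A B C D : Type} [Fintype A] [Fintype B] [Fintype C] [Fintype D]
    (P : A → B → C → D → Prop) (δ : ℝ)
    [DecidablePred fun x : (A × B) × (C × D) => P x.1.1 x.1.2 x.2.1 x.2.2]
    [∀ a c, DecidablePred fun x : B × D => P a x.1 c x.2]
    (h : ∀ a c, ((univ.filter fun x : B × D => P a x.1 c x.2).card : ℝ) ≤
      δ * Fintype.card (B × D)) :
    ((univ.filter fun x : (A × B) × (C × D) => P x.1.1 x.1.2 x.2.1 x.2.2).card : ℝ) ≤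
      δ * Fintype.card ((A × B) × (C × D)) := by
  have e1 : ((univ.filter fun x : (A × B) × (C × D) => P x.1.1 x.1.2 x.2.1 x.2.2).card : ℝ) =
      ∑ y : A × C, ((univ.filter fun x : B × D => P y.1 x.1 y.2 x.2).card : ℝ) := by
    simp only [card_filter]
    push_cast
    rw [← Fintype.sum_prod_type
      (f := fun z : (A × C) × (B × D) => if P z.1.1 z.2.1 z.1.2 z.2.2 then (1 : ℝ) else 0)]
    refine Fintype.sum_equiv (Equiv.prodProdProdComm A B C D) _ _ fun x => ?_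
    by_cases hP : P x.1.1 x.1.2 x.2.1 x.2.2
    · exact (if_pos hP).trans (if_pos hP).symm
    · exact (if_neg hP).trans (if_neg hP).symm
  rw [e1]
  refine (sum_le_sum fun y _ => h y.1 y.2).trans (le_of_eq ?_)
  rw [sum_const, card_univ, nsmul_eq_mul]
  simp only [Fintype.card_prod]
  push_cast
  ring

theorem card_inst {α : Type} [Fintype α] {P : α → Prop} (i j : DecidablePred P) :
    ((@Finset.filter α P i univ).card : ℝ) = ((@Finset.filter α P j univ).card : ℝ) := by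
  have h : i = j := Subsingleton.elim i j
  rw [h]

/-- the value of a union of two games -/
theorem val_union {W1 W2 B1 B2 V1 V2 X1 X2 S L1 L2 : Type} [Fintype W1] [Fintype W2]
    [Fintype B1] [Fintype B2] [DecidableEq L1] [DecidableEq L2]
    (x1 : X1) (x2 : X2) (l1 : L1) (l2 : L2)
    (n1 : W1 → B1 → V1) (n2 : W2 → B2 → V2) (q1 : X1 → B1 → L1) (q2 : X2 → B2 → L2)
    (pi : B1 × B2 → (X1 ⊕ X2) ⊕ S → L1 ⊕ L2)
    (hp1 : ∀ b a, pi b (Sum.inl (Sum.inl a)) = Sum.inl (q1 a b.1))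
    (hp2 : ∀ b a, pi b (Sum.inl (Sum.inr a)) = Sum.inr (q2 a b.2))
    (δ : ℝ)
    (h1 : ∀ (A : W1 → X1) (L : V1 → L1), ((univ.filter fun x : W1 × B1 =>
      q1 (A x.1) x.2 = L (n1 x.1 x.2)).card : ℝ) ≤ δ / 2 * Fintype.card (W1 × B1))
    (h2 : ∀ (A : W2 → X2) (L : V2 → L2), ((univ.filter fun x : W2 × B2 =>
      q2 (A x.1) x.2 = L (n2 x.1 x.2)).card : ℝ) ≤ δ / 2 * Fintype.card (W2 × B2))
    (A : W1 × W2 → (X1 ⊕ X2) ⊕ S) (L : V1 × V2 → L1 ⊕ L2) :
    ((univ.filter fun x : (W1 × W2) × (B1 × B2) => ¬ (∃ s, A x.1 = Sum.inr s) ∧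
      pi x.2 (A x.1) = L (n1 x.1.1 x.2.1, n2 x.1.2 x.2.2)).card : ℝ) ≤
      δ * Fintype.card ((W1 × W2) × (B1 × B2)) := by
  let A1 : W2 → W1 → X1 := fun w2 w1 => match A (w1, w2) with
    | Sum.inl (Sum.inl a) => a
    | Sum.inl (Sum.inr _) => x1
    | Sum.inr _ => x1
  let A2 : W1 → W2 → X2 := fun w1 w2 => match A (w1, w2) with
    | Sum.inl (Sum.inl _) => x2
    | Sum.inl (Sum.inr a) => a
    | Sum.inr _ => x2
  let L1' : V2 → V1 → L1 := fun t2 t1 => match L (t1, t2) with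
    | Sum.inl l => l
    | Sum.inr _ => l1
  let L2' : V1 → V2 → L2 := fun t1 t2 => match L (t1, t2) with
    | Sum.inl _ => l2
    | Sum.inr l => l
  have hsub : (univ.filter fun x : (W1 × W2) × (B1 × B2) =>
      ¬ (∃ s, A x.1 = Sum.inr s) ∧ pi x.2 (A x.1) = L (n1 x.1.1 x.2.1, n2 x.1.2 x.2.2)) ⊆
      (univ.filter fun x : (W1 × W2) × (B1 × B2) =>
        q1 (A1 x.1.2 x.1.1) x.2.1 = L1' (n2 x.1.2 x.2.2) (n1 x.1.1 x.2.1)) ∪
      (univ.filter fun x : (W1 × W2) × (B1 × B2) =>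
        q2 (A2 x.1.1 x.1.2) x.2.2 = L2' (n1 x.1.1 x.2.1) (n2 x.1.2 x.2.2)) := by
    rintro ⟨⟨w1, w2⟩, ⟨b1, b2⟩⟩ hx
    rw [mem_filter] at hx
    obtain ⟨-, hx1, hx2⟩ := hx
    simp only at hx1 hx2
    rw [mem_union, mem_filter, mem_filter]
    rcases hA : A (w1, w2) with (a | a) | a
    · left
      refine ⟨mem_univ _, ?_⟩
      rw [hA, hp1] at hx2
      simp only [A1, L1', hA, ← hx2]
    · right
      refine ⟨mem_univ _, ?_⟩
      rw [hA, hp2] at hx2
      simp only [A2, L2', hA, ← hx2]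
    · exact absurd ⟨a, hA⟩ hx1
  have e1 : ((univ.filter fun x : (W1 × W2) × (B1 × B2) =>
        q1 (A1 x.1.2 x.1.1) x.2.1 = L1' (n2 x.1.2 x.2.2) (n1 x.1.1 x.2.1)).card : ℝ) ≤
      δ / 2 * Fintype.card ((W1 × W2) × (B1 × B2)) :=
    card_four (fun w1 w2 b1 b2 => q1 (A1 w2 w1) b1 = L1' (n2 w2 b2) (n1 w1 b1)) _
      fun w2 b2 => h1 (A1 w2) (L1' (n2 w2 b2))
  have e3 : ((univ.filter fun x : (W1 × W2) × (B1 × B2) =>
        q2 (A2 x.1.1 x.1.2) x.2.2 = L2' (n1 x.1.1 x.2.1) (n2 x.1.2 x.2.2)).card : ℝ) ≤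
      δ / 2 * Fintype.card ((W1 × W2) × (B1 × B2)) :=
    card_four' (fun w1 w2 b1 b2 => q2 (A2 w1 w2) b2 = L2' (n1 w1 b1) (n2 w2 b2)) _
      fun w1 b1 => h2 (A2 w1) (L2' (n1 w1 b1))
  have e5 := (card_le_card hsub).trans (card_union_le _ _)
  have e6 : ((univ.filter fun x : (W1 × W2) × (B1 × B2) =>
      ¬ (∃ s, A x.1 = Sum.inr s) ∧
        pi x.2 (A x.1) = L (n1 x.1.1 x.2.1, n2 x.1.2 x.2.2)).card : ℝ) ≤
      ((univ.filter fun x : (W1 × W2) × (B1 × B2) =>
        q1 (A1 x.1.2 x.1.1) x.2.1 = L1' (n2 x.1.2 x.2.2) (n1 x.1.1 x.2.1)).card : ℝ) +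
      ((univ.filter fun x : (W1 × W2) × (B1 × B2) =>
        q2 (A2 x.1.1 x.1.2) x.2.2 = L2' (n1 x.1.1 x.2.1) (n2 x.1.2 x.2.2)).card : ℝ) := by
    exact_mod_cast e5
  refine e6.trans ((add_le_add e1 e3).trans (le_of_eq ?_))
  ring

theorem theBase_val (p1 p2 k1 k2 d : ℕ) [Fact p1.Prime] [Fact p2.Prime] (hd : 2 ≤ d)
    (u u' : ℤ) (huu : (p1 ^ k1 : ℤ) * u + (p2 ^ k2 : ℤ) * u' = 1) (δ : ℝ)
    (h1 : ∀ (A : WQ p1 k1 → XX p1 k1) (L : TT p1 k1 → LB p1 k1),
      ((univ.filter fun x : WQ p1 k1 × XX p1 k1 =>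
        nrm (A x.1 - x.2) = L (x.1.1.1 + tw x.1.1.2 x.2)).card : ℝ) ≤
        δ / 2 * Fintype.card (WQ p1 k1 × XX p1 k1))
    (h2 : ∀ (A : WQ p2 k2 → XX p2 k2) (L : TT p2 k2 → LB p2 k2),
      ((univ.filter fun x : WQ p2 k2 × XX p2 k2 =>
        nrm (A x.1 - x.2) = L (x.1.1.1 + tw x.1.1.2 x.2)).card : ℝ) ≤
        δ / 2 * Fintype.card (WQ p2 k2 × XX p2 k2)) :
    (theBase p1 p2 k1 k2 d hd u u' huu).Val δ := by
  intro A L
  have h := val_union (S := Σ l : LB p1 k1 ⊕ LB p2 k2, Fin (d - fs l))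
    (0 : XX p1 k1) (0 : XX p2 k2) (nrm 0) (nrm 0)
    (fun (w : WQ p1 k1) (b : XX p1 k1) => w.1.1 + tw w.1.2 b)
    (fun (w : WQ p2 k2) (b : XX p2 k2) => w.1.1 + tw w.1.2 b)
    (fun a b => nrm (a - b)) (fun a b => nrm (a - b)) (pim d) (fun b a => rfl) (fun b a => rfl)
    δ h1 h2 A L
  refine le_trans (le_of_eq (card_inst _ _)) h

/-- base games with small value exist -/
theorem exists_base (d : ℕ) (hd : 2 ≤ d) (δ : ℝ) (hδ : 0 < δ) : ∃ G : Base d, G.Val δ := by
  have f3 : Fact (Nat.Prime 3) := ⟨by norm_num⟩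
  have f5 : Fact (Nat.Prime 5) := ⟨by norm_num⟩
  obtain ⟨k1, h1⟩ := valueQ (q := 3) (by norm_num) (δ / 2) (by positivity)
  obtain ⟨k2, h2⟩ := valueQ (q := 5) (by norm_num) (δ / 2) (by positivity)
  have hcop : IsCoprime ((3 : ℤ) ^ k1) ((5 : ℤ) ^ k2) := by
    apply IsCoprime.pow
    exact ⟨2, -1, by norm_num⟩
  obtain ⟨u, u', huu⟩ := hcop
  have huu' : ((3 : ℕ) ^ k1 : ℤ) * u + ((5 : ℕ) ^ k2 : ℤ) * u' = 1 := by
    push_cast
    linarith
  exact ⟨theBase 3 5 k1 k2 d hd u u' huu', theBase_val 3 5 k1 k2 d hd u u' huu' δ h1 h2⟩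

end Pool.Agent.NH48.SD
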