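import Pool.Agent.NH48.DA.Relax

/-! # The combination of semidefinite programming and linear equations: definitions -/

set_option autoImplicit false

open scoped Classical
open Finset

namespace Pool.Agent.NH48.SD

open H589DT
open Pool.Agent.NH48.DA (LinSol BlpAip KCons)

/-- the vectors `y v a` for the labels of the left vertices and `x w b` for those of the right
vertices are a perfect solution of the semidefinite relaxation of the game `I`: the vectors of the
labels of each vertex are pairwise orthogonal, their sum is the unit vector `z` (the same for all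
vertices), and for each edge `v`, `w` the vector `y v a` is the sum of the vectors `x w b` of the
labels `b` that the constraint maps to `a` -/
def VecSol {V W D : Type} [Fintype D] {d R : ℕ} (I : DGame V W d R) (z : D → ℝ)
    (y : V → Fin R → D → ℝ) (x : W → Fin (d * R) → D → ℝ) : Prop :=
  z ⬝ᵥ z = 1 ∧ (∀ v, ∑ a, y v a = z) ∧ (∀ w, ∑ b, x w b = z) ∧
    (∀ v a a', a ≠ a' → y v a ⬝ᵥ y v a' = 0) ∧ (∀ w b b', b ≠ b' → x w b ⬝ᵥ x w b' = 0) ∧
    ∀ v w, I.adj v w → ∀ a, ∑ b with I.map v w b = a, x w b = y v a

/-- the game is accepted by the relaxation SDA (semidefinite programming and linear equations): it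
has a perfect solution of the semidefinite relaxation and an integral solution of the linear system
of the game that is zero wherever the vectors are zero -/
def Sda {V W : Type} {d R : ℕ} (I : DGame V W d R) : Prop :=
  ∃ (D : Type) (_ : Fintype D) (z : D → ℝ) (y : V → Fin R → D → ℝ) (x : W → Fin (d * R) → D → ℝ)
    (y' : V → Fin R → ℤ) (x' : W → Fin (d * R) → ℤ),
    VecSol I z y x ∧ LinSol ℤ I y' x' ∧ (∀ v a, y v a = 0 → y' v a = 0) ∧
    ∀ w b, x w b = 0 → x' w b = 0

/-- the functions of the game that do not distinguish any two games that are accepted by SDA and by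
BLP+AIP and pass the test of `k`-consistency -/
def BlindS (V W : Type) [Fintype V] [Fintype W] (d R k : ℕ) : Set (DGame V W d R → ℝ) :=
  {f | ∃ c : ℝ, ∀ I, Sda I → BlpAip I → KCons k I → f I = c}

end Pool.Agent.NH48.SD
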