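import Pool.Agent.H589R3.DT.EX

/-! # Sparse bipartite graphs in which the neighbours are chosen from given sets -/

set_option autoImplicit false

open scoped Classical
open Finset

namespace Pool.Agent.NH48.SD

open H589DT

/-- the neighbours given by the choices `ψ` -/
def phi {n n' D : ℕ} (F : Fin n → Fin D → Fin n' → Fin n) (ψ : Fin n → Fin D → Fin n') :
    Fin n → Fin D → Fin n := fun w i => F w i (ψ w i)

section

variable {n n' D : ℕ} (F : Fin n → Fin D → Fin n' → Fin n)

/-- the choices with at least `k` edges in `S` -/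
noncomputable def Ev (S : Finset (Fin n ⊕ Fin n)) (k : ℕ) :
    Finset (Fin n → Fin D → Fin n') :=
  univ.filter fun ψ => k ≤ (einφ (phi F ψ) ∅ S).card

theorem card_phi (hF : ∀ w i, Function.Injective (F w i)) (V : Finset (Fin n))
    (T : Finset (Fin n × Fin D)) :
    (univ.filter fun ψ : Fin n → Fin D → Fin n' => ∀ e ∈ T, phi F ψ e.1 e.2 ∈ V).card *
      n' ^ T.card ≤ V.card ^ T.card * (n' ^ D) ^ n := by
  have h1 : (univ.filter fun ψ : Fin n → Fin D → Fin n' => ∀ e ∈ T, phi F ψ e.1 e.2 ∈ V) =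
      Fintype.piFinset fun w => Fintype.piFinset fun i =>
        (if (w, i) ∈ T then (univ.filter fun j => F w i j ∈ V) else univ : Finset (Fin n')) := by
    ext ψ
    simp only [mem_filter, mem_univ, true_and, Fintype.mem_piFinset]
    constructor
    · intro h w i
      by_cases hT : (w, i) ∈ T
      · rw [if_pos hT, mem_filter]
        exact ⟨mem_univ _, h (w, i) hT⟩
      · rw [if_neg hT]
        exact mem_univ _
    · intro h e he
      have h2 := h e.1 e.2
      rw [if_pos he, mem_filter] at h2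
      exact h2.2
  rw [h1, Fintype.card_piFinset]
  simp_rw [Fintype.card_piFinset]
  rw [← Fintype.prod_prod_type'
    (f := fun w i => (if (w, i) ∈ T then (univ.filter fun j => F w i j ∈ V) else univ :
      Finset (Fin n')).card)]
  have h2 : ∀ x : Fin n × Fin D, (if (x.1, x.2) ∈ T then (univ.filter fun j => F x.1 x.2 j ∈ V)
      else univ : Finset (Fin n')).card ≤ if x ∈ T then V.card else n' := by
    intro x
    by_cases hx : x ∈ T
    · rw [if_pos hx, if_pos hx]
      apply card_le_card_of_injOn (F x.1 x.2)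
      · intro j hj
        exact (mem_filter.1 (mem_coe.1 hj)).2
      · exact (hF x.1 x.2).injOn
    · rw [if_neg hx, if_neg hx, card_univ, Fintype.card_fin]
  refine (Nat.mul_le_mul_right _ (Finset.prod_le_prod' fun x _ => h2 x)).trans (le_of_eq ?_)
  rw [Finset.prod_ite, Finset.prod_const,
    Finset.prod_const, Finset.filter_mem_eq_inter, Finset.univ_inter]
  have h3 : (univ.filter fun x : Fin n × Fin D => x ∉ T).card + T.card = n * D := by
    have := Finset.card_filter_add_card_filter_not (s := (univ : Finset (Fin n × Fin D)))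
      (fun x => x ∉ T)
    simp only [not_not, Finset.filter_mem_eq_inter, Finset.univ_inter, Finset.card_univ,
      Fintype.card_prod, Fintype.card_fin] at this
    exact this
  rw [mul_assoc, ← pow_add, h3, ← pow_mul, mul_comm n D]

theorem card_Ev (hF : ∀ w i, Function.Injective (F w i)) (S : Finset (Fin n ⊕ Fin n)) (k : ℕ) :
    (Ev F S k).card * n' ^ k ≤ 2 ^ (D * S.card) * S.card ^ k * (n' ^ D) ^ n := by
  set R : Finset (Fin n × Fin D) := S.toRight ×ˢ univ with hR
  have hsub : Ev F S k ⊆ (R.powersetCard k).biUnion fun T =>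
      univ.filter fun ψ : Fin n → Fin D → Fin n' => ∀ e ∈ T, phi F ψ e.1 e.2 ∈ S.toLeft := by
    intro φ hφ
    simp only [Ev, mem_filter, mem_univ, true_and] at hφ
    obtain ⟨T, hT, hTk⟩ := Finset.exists_subset_card_eq hφ
    simp only [mem_biUnion, mem_powersetCard, mem_filter, mem_univ, true_and]
    refine ⟨T, ⟨?_, hTk⟩, ?_⟩
    · intro e he
      have := hT he
      simp only [einφ, mem_filter, mem_univ, true_and] at this
      simp only [hR, mem_product, mem_univ, and_true, Finset.mem_toRight]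
      exact this.2.1
    · intro e he
      have := hT he
      simp only [einφ, mem_filter, mem_univ, true_and] at this
      rw [Finset.mem_toLeft]
      exact this.2.2
  calc (Ev F S k).card * n' ^ k
      ≤ (∑ T ∈ R.powersetCard k, (univ.filter fun ψ : Fin n → Fin D → Fin n' =>
          ∀ e ∈ T, phi F ψ e.1 e.2 ∈ S.toLeft).card) * n' ^ k :=
        Nat.mul_le_mul_right _ ((Finset.card_le_card hsub).trans Finset.card_biUnion_le)
    _ ≤ ∑ T ∈ R.powersetCard k, S.toLeft.card ^ k * (n' ^ D) ^ n := by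
        rw [Finset.sum_mul]
        refine Finset.sum_le_sum fun T hT => ?_
        rw [mem_powersetCard] at hT
        have := card_phi F hF S.toLeft T
        rw [hT.2] at this
        exact this
    _ = (R.powersetCard k).card * (S.toLeft.card ^ k * (n' ^ D) ^ n) := by
        rw [Finset.sum_const, smul_eq_mul]
    _ ≤ 2 ^ (D * S.card) * (S.card ^ k * (n' ^ D) ^ n) := by
        refine Nat.mul_le_mul ?_ (Nat.mul_le_mul_right _ (Nat.pow_le_pow_left ?_ k))
        · calc (R.powersetCard k).card ≤ R.powerset.card :=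
                Finset.card_le_card fun T hT => by
                  rw [mem_powersetCard] at hT
                  exact mem_powerset.2 hT.1
            _ = 2 ^ R.card := Finset.card_powerset R
            _ ≤ 2 ^ (D * S.card) := by
                refine Nat.pow_le_pow_right (by norm_num) ?_
                rw [hR, Finset.card_product, Finset.card_univ, Fintype.card_fin, mul_comm]
                exact Nat.mul_le_mul_left _ Finset.card_toRight_le
        · exact Finset.card_toLeft_le
    _ = 2 ^ (D * S.card) * S.card ^ k * (n' ^ D) ^ n := by ring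

theorem card_Ev' (hF : ∀ w i, Function.Injective (F w i)) (P : ℕ) (hP : n ≤ P * n')
    (hn : 1 ≤ n') (s j : ℕ) :
    (∑ S ∈ (univ : Finset (Fin n ⊕ Fin n)).powersetCard s, (Ev F S (s + j)).card) * n' ^ j ≤
      (6 * P * 2 ^ D) ^ s * s ^ j * (n' ^ D) ^ n := by
  have hpos : 0 < n' ^ s := by positivity
  refine Nat.le_of_mul_le_mul_right ?_ hpos
  calc (∑ S ∈ (univ : Finset (Fin n ⊕ Fin n)).powersetCard s, (Ev F S (s + j)).card) * n' ^ j
        * n' ^ s
      = ∑ S ∈ (univ : Finset (Fin n ⊕ Fin n)).powersetCard s,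
          (Ev F S (s + j)).card * n' ^ (s + j) := by
        rw [Finset.sum_mul, Finset.sum_mul]
        refine Finset.sum_congr rfl fun S _ => ?_
        rw [pow_add]; ring
    _ ≤ ∑ S ∈ (univ : Finset (Fin n ⊕ Fin n)).powersetCard s,
          2 ^ (D * s) * s ^ (s + j) * (n' ^ D) ^ n := by
        refine Finset.sum_le_sum fun S hS => ?_
        have := card_Ev F hF S (s + j)
        rw [(mem_powersetCard.1 hS).2] at this
        exact this
    _ = ((2 * n).choose s * s ^ s) * (2 ^ (D * s) * s ^ j * (n' ^ D) ^ n) := by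
        rw [Finset.sum_const, smul_eq_mul, Finset.card_powersetCard, Finset.card_univ,
          Fintype.card_sum, Fintype.card_fin, ← two_mul, pow_add]
        ring
    _ ≤ (6 * n) ^ s * (2 ^ (D * s) * s ^ j * (n' ^ D) ^ n) :=
        Nat.mul_le_mul_right _ (EXaux.choose_pow n s)
    _ ≤ (6 * (P * n')) ^ s * (2 ^ (D * s) * s ^ j * (n' ^ D) ^ n) :=
        Nat.mul_le_mul_right _ (Nat.pow_le_pow_left (Nat.mul_le_mul_left _ hP) _)
    _ = (6 * P * 2 ^ D) ^ s * s ^ j * (n' ^ D) ^ n * n' ^ s := by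
        rw [← mul_assoc 6 P n', mul_pow (6 * P) n' s, mul_pow (6 * P) (2 ^ D) s, ← pow_mul]; ring

/-- the sum for the sizes `s` with `s ^ 2 ≤ n` -/
theorem bad1 (hF : ∀ w i, Function.Injective (F w i)) (P : ℕ) (hP : n ≤ P * n') (hP1 : 1 ≤ P)
    {h : ℕ} (hh : 1 ≤ h) (hn : (8 * (6 * P * 2 ^ D)) ^ (2 * h) * P ≤ n') (s : ℕ) (hs : 1 ≤ s)
    (hsn : s ^ 2 ≤ n) :
    (∑ S ∈ (univ : Finset (Fin n ⊕ Fin n)).powersetCard s,
      (Ev F S (s + (s / h + 1))).card) * 8 ^ s ≤ (n' ^ D) ^ n := by
  set C : ℕ := 6 * P * 2 ^ D with hC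
  have hC1 : 1 ≤ C := by
    have h1 : 1 ≤ 2 ^ D := Nat.one_le_two_pow
    have h2 : 1 ≤ P * 2 ^ D := Nat.mul_pos hP1 h1
    have h3 : C = 6 * (P * 2 ^ D) := by rw [hC, mul_assoc]
    omega
  have hn1 : 1 ≤ n' := le_trans (Nat.mul_pos (Nat.one_le_pow _ _ (by omega)) hP1) hn
  set A := ∑ S ∈ (univ : Finset (Fin n ⊕ Fin n)).powersetCard s,
      (Ev F S (s + (s / h + 1))).card with hA
  have key := card_Ev' F hF P hP hn1 s (s / h + 1)
  rw [← hA, ← hC] at key
  have h1 : (8 * C) ^ h * s ≤ n' := by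
    have : ((8 * C) ^ h * s) ^ 2 ≤ n' ^ 2 := by
      calc ((8 * C) ^ h * s) ^ 2 = (8 * C) ^ (2 * h) * s ^ 2 := by
            rw [mul_pow, ← pow_mul, mul_comm h 2]
        _ ≤ (8 * C) ^ (2 * h) * (P * n') := Nat.mul_le_mul_left _ (hsn.trans hP)
        _ = (8 * C) ^ (2 * h) * P * n' := by ring
        _ ≤ n' * n' := Nat.mul_le_mul_right _ hn
        _ = n' ^ 2 := by ring
    exact (Nat.pow_le_pow_iff_left (by norm_num)).1 this
  have h2 : (8 * C) ^ s ≤ ((8 * C) ^ h) ^ (s / h + 1) := by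
    rw [← pow_mul]
    refine Nat.pow_le_pow_right (by omega) ?_
    exact (Nat.lt_mul_div_succ s (by omega)).le
  have h3 : A * ((8 * C) ^ s * s ^ (s / h + 1)) ≤ C ^ s * s ^ (s / h + 1) * (n' ^ D) ^ n := by
    calc A * ((8 * C) ^ s * s ^ (s / h + 1))
        ≤ A * (((8 * C) ^ h) ^ (s / h + 1) * s ^ (s / h + 1)) :=
          Nat.mul_le_mul_left _ (Nat.mul_le_mul_right _ h2)
      _ = A * ((8 * C) ^ h * s) ^ (s / h + 1) := by rw [mul_pow ((8 * C) ^ h) s]
      _ ≤ A * n' ^ (s / h + 1) := Nat.mul_le_mul_left _ (Nat.pow_le_pow_left h1 _)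
      _ ≤ _ := key
  have h4 : 0 < C ^ s * s ^ (s / h + 1) := by positivity
  refine Nat.le_of_mul_le_mul_left (c := C ^ s * s ^ (s / h + 1)) ?_ h4
  calc C ^ s * s ^ (s / h + 1) * (A * 8 ^ s) = A * ((8 * C) ^ s * s ^ (s / h + 1)) := by
        rw [mul_pow 8 C s]; ring
    _ ≤ _ := h3

theorem sum_X (hF : ∀ w i, Function.Injective (F w i)) (P : ℕ) (hP : n ≤ P * n') (hP1 : 1 ≤ P)
    {g : ℕ} (hn : 1 ≤ n') :
    ∑ ψ : Fin n → Fin D → Fin n', EXaux.X g (phi F ψ) ≤
      g * (6 * P * 2 ^ D) ^ g * (n' ^ D) ^ n := by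
  have hC1 : 1 ≤ 6 * P * 2 ^ D := by
    have h1 : 1 ≤ 2 ^ D := Nat.one_le_two_pow
    have h2 : 1 ≤ P * 2 ^ D := Nat.mul_pos hP1 h1
    have h3 : 6 * P * 2 ^ D = 6 * (P * 2 ^ D) := by rw [mul_assoc]
    omega
  calc ∑ ψ : Fin n → Fin D → Fin n', EXaux.X g (phi F ψ)
      = ∑ s ∈ Finset.Icc 1 g, ∑ S ∈ (univ : Finset (Fin n ⊕ Fin n)).powersetCard s,
          (Ev F S s).card := by
        unfold EXaux.X
        rw [Finset.sum_comm]
        refine Finset.sum_congr rfl fun s _ => ?_
        rw [Finset.sum_comm]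
        refine Finset.sum_congr rfl fun S _ => ?_
        rw [Ev, Finset.card_filter]
    _ ≤ ∑ s ∈ Finset.Icc 1 g, (6 * P * 2 ^ D) ^ g * (n' ^ D) ^ n := by
        refine Finset.sum_le_sum fun s hs => ?_
        have := card_Ev' F hF P hP hn s 0
        simp only [add_zero, pow_zero, mul_one] at this
        refine this.trans (Nat.mul_le_mul_right _ (Nat.pow_le_pow_right hC1 ?_))
        exact (Finset.mem_Icc.1 hs).2
    _ = g * (6 * P * 2 ^ D) ^ g * (n' ^ D) ^ n := by
        rw [Finset.sum_const, smul_eq_mul, Nat.card_Icc]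
        simp [mul_assoc]

/-- good choices exist, outside any small set -/
theorem exists_good (hF : ∀ w i, Function.Injective (F w i)) (P : ℕ) (hP : n ≤ P * n')
    (hP1 : 1 ≤ P) (h g : ℕ) (hh : 1 ≤ h) (hn0 : (8 * (6 * P * 2 ^ D)) ^ (2 * h) * P ≤ n')
    (hn2 : 8 * (g * (g * (6 * P * 2 ^ D) ^ g)) ≤ n)
    (Bad3 : Finset (Fin n → Fin D → Fin n')) (hb3 : 8 * Bad3.card ≤ (n' ^ D) ^ n) :
    ∃ ψ : Fin n → Fin D → Fin n', ψ ∉ Bad3 ∧ ∃ B : Finset (Fin n), 2 * B.card ≤ n ∧
      (∀ S : Finset (Fin n ⊕ Fin n), S.card ^ 2 ≤ n →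
        (einφ (phi F ψ) B S).card ≤ S.card + S.card / h) ∧
      ∀ S : Finset (Fin n ⊕ Fin n), S.Nonempty → S.card ≤ g →
        (einφ (phi F ψ) B S).card < S.card := by
  have hn1 : 1 ≤ n' := by
    refine le_trans (Nat.mul_pos (Nat.one_le_pow _ _ ?_) hP1) hn0
    have h1 : 1 ≤ 2 ^ D := Nat.one_le_two_pow
    have h2 : 1 ≤ P * 2 ^ D := Nat.mul_pos hP1 h1
    have h3 : 6 * P * 2 ^ D = 6 * (P * 2 ^ D) := by rw [mul_assoc]
    omega
  set K : ℕ := g * (6 * P * 2 ^ D) ^ g with hK
  have hNpos : 0 < (n' ^ D) ^ n := by positivity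
  -- the first bad set
  set Bad1 : Finset (Fin n → Fin D → Fin n') := univ.filter fun ψ =>
    ∃ S : Finset (Fin n ⊕ Fin n), 1 ≤ S.card ∧ S.card ^ 2 ≤ n ∧
      S.card + (S.card / h + 1) ≤ (einφ (phi F ψ) ∅ S).card with hBad1
  have hb1 : 7 * Bad1.card ≤ (n' ^ D) ^ n := by
    have hsub : Bad1 ⊆ ((Finset.Icc 1 n).filter fun s => s ^ 2 ≤ n).biUnion fun s =>
        ((univ : Finset (Fin n ⊕ Fin n)).powersetCard s).biUnion fun S =>
          Ev F S (s + (s / h + 1)) := by
      intro φ hφ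
      simp only [hBad1, mem_filter, mem_univ, true_and] at hφ
      obtain ⟨S, h1, h2, h3⟩ := hφ
      rw [mem_biUnion]
      refine ⟨S.card, ?_, ?_⟩
      · rw [mem_filter, Finset.mem_Icc]
        refine ⟨⟨h1, ?_⟩, h2⟩
        calc S.card ≤ S.card ^ 2 := Nat.le_self_pow (by norm_num) _
          _ ≤ n := h2
      · rw [mem_biUnion]
        refine ⟨S, mem_powersetCard.2 ⟨subset_univ _, rfl⟩, ?_⟩
        simp only [Ev, mem_filter, mem_univ, true_and]
        exact h3
    calc 7 * Bad1.card ≤ 7 * ∑ s ∈ (Finset.Icc 1 n).filter (fun s => s ^ 2 ≤ n),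
          ∑ S ∈ (univ : Finset (Fin n ⊕ Fin n)).powersetCard s,
            (Ev F S (s + (s / h + 1))).card := by
          refine Nat.mul_le_mul_left _ ((Finset.card_le_card hsub).trans
            (Finset.card_biUnion_le.trans ?_))
          exact Finset.sum_le_sum fun s _ => Finset.card_biUnion_le
      _ ≤ (n' ^ D) ^ n := by
          refine EXaux.geo _ n _ _ (Finset.filter_subset _ _) fun s hs => ?_
          rw [mem_filter, Finset.mem_Icc] at hs
          exact bad1 F hF P hP hP1 hh hn0 s hs.1.1 hs.2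
  -- the second bad set
  set Bad2 : Finset (Fin n → Fin D → Fin n') := univ.filter fun ψ =>
    4 * K + 1 ≤ EXaux.X g (phi F ψ) with hBad2
  have hb2 : 4 * Bad2.card ≤ (n' ^ D) ^ n := by
    have h1 : Bad2.card * (4 * K + 1) ≤ K * (n' ^ D) ^ n := by
      calc Bad2.card * (4 * K + 1) = ∑ ψ ∈ Bad2, (4 * K + 1) := by
            rw [Finset.sum_const, smul_eq_mul]
        _ ≤ ∑ ψ ∈ Bad2, EXaux.X g (phi F ψ) := by
            refine Finset.sum_le_sum fun φ hφ => ?_
            simp only [hBad2, mem_filter, mem_univ, true_and] at hφ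
            exact hφ
        _ ≤ ∑ ψ : Fin n → Fin D → Fin n', EXaux.X g (phi F ψ) :=
            Finset.sum_le_sum_of_subset (subset_univ _)
        _ ≤ K * (n' ^ D) ^ n := sum_X F hF P hP hP1 hn1
    rcases Nat.eq_zero_or_pos K with h0 | h0
    · rw [h0] at h1
      simp only [mul_zero, zero_add, mul_one, zero_mul, Nat.le_zero] at h1
      rw [h1]
      omega
    · refine Nat.le_of_mul_le_mul_left (c := K) ?_ h0
      calc K * (4 * Bad2.card) = Bad2.card * (4 * K) := by ring
        _ ≤ Bad2.card * (4 * K + 1) := Nat.mul_le_mul_left _ (by omega)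
        _ ≤ _ := h1
  obtain ⟨ψ, hφ1, hφ2, hφ3⟩ : ∃ ψ, ψ ∉ Bad1 ∧ ψ ∉ Bad2 ∧ ψ ∉ Bad3 := by
    by_contra hcon
    push Not at hcon
    have h1 : (univ : Finset (Fin n → Fin D → Fin n')) ⊆ (Bad1 ∪ Bad2) ∪ Bad3 := by
      intro φ _
      rw [mem_union, mem_union]
      by_cases h' : φ ∈ Bad1
      · exact Or.inl (Or.inl h')
      · by_cases h'' : φ ∈ Bad2
        · exact Or.inl (Or.inr h'')
        · exact Or.inr (hcon φ h' h'')
    have h2 := (Finset.card_le_card h1).trans (Finset.card_union_le _ _)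
    have h3 := Finset.card_union_le Bad1 Bad2
    rw [Finset.card_univ, Fintype.card_fun, Fintype.card_fun, Fintype.card_fin,
      Fintype.card_fin, Fintype.card_fin] at h2
    omega
  have hX : EXaux.X g (phi F ψ) ≤ 4 * K := by
    simp only [hBad2, mem_filter, mem_univ, true_and] at hφ2
    omega
  refine ⟨ψ, hφ3, EXaux.BB g (phi F ψ), ?_, ?_, ?_⟩
  · have h1 := EXaux.card_BB (g := g) (phi F ψ)
    calc 2 * (EXaux.BB g (phi F ψ)).card ≤ 2 * (g * (4 * K)) :=
          Nat.mul_le_mul_left _ (h1.trans (Nat.mul_le_mul_left _ hX))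
      _ = 8 * (g * K) := by ring
      _ ≤ n := hn2
  · intro S hS
    have hle : (einφ (phi F ψ) (EXaux.BB g (phi F ψ)) S).card ≤ (einφ (phi F ψ) ∅ S).card := by
      refine Finset.card_le_card fun e he => ?_
      simp only [einφ, mem_filter, mem_univ, true_and] at he ⊢
      exact ⟨by simp, he.2⟩
    rcases Nat.eq_zero_or_pos S.card with h0 | h0
    · rw [Finset.card_eq_zero] at h0
      subst h0
      simp [einφ]
    · refine hle.trans ?_
      by_contra hcon
      push Not at hcon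
      apply hφ1
      simp only [hBad1, mem_filter, mem_univ, true_and]
      exact ⟨S, h0, hS, by omega⟩
  · intro S hS hSg
    by_contra hcon
    push Not at hcon
    have hSpos : 0 < S.card := Finset.card_pos.2 hS
    set S' : Finset (Fin n ⊕ Fin n) := S.filter fun u => ∀ w, u = Sum.inr w →
      w ∉ EXaux.BB g (phi F ψ) with hS'
    have h1 : einφ (phi F ψ) (EXaux.BB g (phi F ψ)) S ⊆ einφ (phi F ψ) ∅ S' := by
      intro e he
      simp only [einφ, mem_filter, mem_univ, true_and, hS'] at he ⊢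
      refine ⟨by simp, ⟨he.2.1, ?_⟩, he.2.2, ?_⟩
      · intro w hw
        rw [← Sum.inr_injective hw]
        exact he.1
      · intro w hw
        exact absurd hw (by simp)
    have h2 : S'.card ≤ (einφ (phi F ψ) ∅ S').card :=
      (Finset.card_le_card (Finset.filter_subset _ _)).trans (hcon.trans (Finset.card_le_card h1))
    have h3 : (einφ (phi F ψ) (EXaux.BB g (phi F ψ)) S).Nonempty :=
      Finset.card_pos.1 (lt_of_lt_of_le hSpos hcon)
    obtain ⟨e, he⟩ := h3
    have he' := h1 he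
    simp only [einφ, mem_filter, mem_univ, true_and] at he he'
    apply he.1
    simp only [EXaux.BB, mem_filter, mem_univ, true_and]
    exact ⟨S', he'.2.1, (Finset.card_le_card (Finset.filter_subset _ _)).trans hSg, h2⟩

end

end Pool.Agent.NH48.SD
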