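import Pool.Agent.NH48.SD.Rand
import Pool.Agent.NH48.DA.Fam
import Pool.Agent.H589R3.DT.Game

/-! # The host games -/

set_option autoImplicit false

open scoped Classical
open Finset

namespace Pool.Agent.NH48.SD

open H589DT
open H630VC (Prog marked)
open Pool.Agent.NH48.DA (gg Good)

section labels

variable {d : ℕ} (G : Base d) (LL T : Type) [Fintype LL] [Fintype T]

/-- left labels -/
abbrev LT : Type := LL ⊕ (G.LC × T)

/-- right labels -/
abbrev RT : Type := (LL × Fin d) ⊕ (G.RC × T)

/-- the data of a constraint -/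
abbrev Idx : Type := ℕ × G.WB × G.IB × T

theorem card_RC : Fintype.card G.RC = d * Fintype.card G.LC := by
  have h : ∑ l : G.LC, (univ.filter fun c => G.π G.w0 G.b0 c = l).card = Fintype.card G.RC := by
    rw [← card_univ, card_eq_sum_card_fiberwise (f := fun c => G.π G.w0 G.b0 c) (t := univ)]
    intro a _
    exact mem_coe.2 (mem_univ _)
  rw [← h, sum_congr rfl fun l _ => G.fib G.w0 G.b0 l, sum_const, card_univ, smul_eq_mul, mul_comm]

theorem card_RT : Fintype.card (RT G LL T) = d * Fintype.card (LT G LL T) := by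
  simp only [Fintype.card_sum, Fintype.card_prod, Fintype.card_fin, card_RC G]
  ring

/-- left labels, numbered -/
noncomputable def eL : LT G LL T ≃ Fin (Fintype.card (LT G LL T)) := Fintype.equivFin _

/-- right labels, numbered -/
noncomputable def eR : RT G LL T ≃ Fin (d * Fintype.card (LT G LL T)) :=
  Fintype.equivFinOfCardEq (card_RT G LL T)

variable {LL T} [AddCommGroup T]

/-- the constraint maps -/
noncomputable def emap (cm : ℕ → LL × Fin d → LL) (x : Idx G T) : RT G LL T → LT G LL T
  | Sum.inl m => Sum.inl (cm x.1 m)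
  | Sum.inr c => Sum.inr (G.π x.2.1 x.2.2.1 c.1, if G.dum c.1 then c.2 + x.2.2.2 else c.2)

/-- the constraint maps, on numbers -/
noncomputable def cmap (cm : ℕ → LL × Fin d → LL) (x : Idx G T) :
    Fin (d * Fintype.card (LT G LL T)) → Fin (Fintype.card (LT G LL T)) :=
  fun b => eL G LL T (emap G cm x ((eR G LL T).symm b))

theorem sum_cmap {K : Type} [AddCommMonoid K] (cm : ℕ → LL × Fin d → LL) (x : Idx G T)
    (a : Fin (Fintype.card (LT G LL T))) (f : RT G LL T → K) :
    ∑ b with cmap G cm x b = a, f ((eR G LL T).symm b) =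
      ∑ r with emap G cm x r = (eL G LL T).symm a, f r := by
  apply Finset.sum_equiv (eR G LL T).symm
  · intro b
    rw [mem_filter, mem_filter]
    simp only [mem_univ, true_and]
    unfold cmap
    exact (Equiv.eq_symm_apply (eL G LL T)).symm
  · intro b _
    rfl

theorem card_emap {cm : ℕ → LL × Fin d → LL}
    (hinj : ∀ t j l l', cm t (l, j) = cm t (l', j) → l = l') (x : Idx G T) (a : LT G LL T) :
    (univ.filter fun r => emap G cm x r = a).card ≤ d := by
  rcases a with l | ⟨l, i⟩
  · have h1 : (univ.filter fun r => emap G cm x r = Sum.inl l) ⊆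
        (univ.filter fun m : LL × Fin d => cm x.1 m = l).image Sum.inl := by
      intro r hr
      rw [mem_filter] at hr
      rw [mem_image]
      rcases r with m | c
      · exact ⟨m, mem_filter.2 ⟨mem_univ _, Sum.inl_injective hr.2⟩, rfl⟩
      · exact absurd hr.2 (by simp [emap])
    refine (card_le_card h1).trans (card_image_le.trans ?_)
    have h2 : ((univ.filter fun m : LL × Fin d => cm x.1 m = l).image fun m => m.2).card =
        (univ.filter fun m : LL × Fin d => cm x.1 m = l).card := by
      apply card_image_of_injOn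
      intro b hb c hc hbc
      have hb' := (mem_filter.1 (mem_coe.1 hb)).2
      have hc' := (mem_filter.1 (mem_coe.1 hc)).2
      have hbc' : b.2 = c.2 := hbc
      have h3 : cm x.1 (b.1, b.2) = cm x.1 (c.1, b.2) := by
        rw [Prod.mk.eta, hb', hbc', Prod.mk.eta, hc']
      exact Prod.ext (hinj _ _ _ _ h3) hbc'
    rw [← h2]
    exact (card_le_univ _).trans (by rw [Fintype.card_fin])
  · have h1 : (univ.filter fun r => emap G cm x r = Sum.inr (l, i)) ⊆
        (univ.filter fun c => G.π x.2.1 x.2.2.1 c = l).image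
          fun c => Sum.inr (c, if G.dum c then i - x.2.2.2 else i) := by
      intro r hr
      rw [mem_filter] at hr
      rw [mem_image]
      rcases r with m | c
      · exact absurd hr.2 (by simp [emap])
      · have h2 := Sum.inr_injective hr.2
        rw [Prod.mk.injEq] at h2
        refine ⟨c.1, mem_filter.2 ⟨mem_univ _, h2.1⟩, ?_⟩
        have h3 : (if G.dum c.1 then i - x.2.2.2 else i) = c.2 := by
          by_cases hc : G.dum c.1
          · rw [if_pos hc] at h2 ⊢
            rw [← h2.2, add_sub_cancel_right]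
          · rw [if_neg hc] at h2 ⊢
            exact h2.2.symm
        rw [h3]
    exact (card_le_card h1).trans (card_image_le.trans (le_of_eq (G.fib _ _ _)))

theorem cmap_fib {cm : ℕ → LL × Fin d → LL}
    (hinj : ∀ t j l l', cm t (l, j) = cm t (l', j) → l = l') (x : Idx G T)
    (a : Fin (Fintype.card (LT G LL T))) :
    (univ.filter fun b => cmap G cm x b = a).card ≤ d := by
  rw [card_eq_sum_ones, sum_cmap G cm x a (fun _ => 1), ← card_eq_sum_ones]
  exact card_emap G hinj x _

end labels

section

variable {d : ℕ} {G : Base d} {LL T : Type} [Fintype LL] [Fintype T] [AddCommGroup T]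
  {n D m N C : ℕ}

variable (cm : ℕ → LL × Fin d → LL) (hinj : ∀ t j l l', cm t (l, j) = cm t (l', j) → l = l')
  (cw : Fin n → G.WB) (ci : Fin D → G.IB) (τ : Fin n → Fin D → T)
  (φ : Fin n → Fin D → Fin n) (B : Finset (Fin n)) (s : Fin n → Fin D → Fin C)
  (ιV ιW : Option (Fin n × Fin m) ↪ Fin N)

/-- the data of the constraint on an edge -/
def eidx (e : Fin n × Fin D) : Idx G T :=
  ((e.2 : ℕ) * C + (s e.1 e.2 : ℕ), cw e.1, ci e.2, τ e.1 e.2)

/-- the data of the constraint map between two vertices of the host -/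
noncomputable def hidx (v w : Fin N) : Idx G T :=
  if h : ∃ c, isEdge φ B ιV ιW c v w then eidx cw ci τ s h.choose.1.1 else (0, G.w0, G.b0, 0)

/-- the game given by a set of host constraints -/
noncomputable def hostInst (H : Finset (EE D B × Fin m × Fin m)) :
    DGame (Fin N) (Fin N) d (Fintype.card (LT G LL T)) where
  adj v w := (v = ιV none ∧ w = ιW none) ∨ ∃ c ∈ H, isEdge φ B ιV ιW c v w
  map v w := cmap G cm (hidx cw ci τ φ B s ιV ιW v w)
  fib _ _ _ a := cmap_fib G hinj _ a

variable {cm hinj cw ci τ φ B s ιV ιW}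

theorem hidx_of_isEdge (hφ : ∀ w i j, w ∉ B → φ w i = φ w j → i = j)
    {c : EE D B × Fin m × Fin m} {v w : Fin N} (h : isEdge φ B ιV ιW c v w) :
    hidx cw ci τ φ B s ιV ιW v w = eidx cw ci τ s c.1.1 := by
  unfold hidx
  have hex : ∃ c, isEdge φ B ιV ιW c v w := ⟨c, h⟩
  rw [dif_pos hex]
  have := isEdge_unique hφ hex.choose_spec h
  rw [this]

theorem hidx_none : hidx cw ci τ φ B s ιV ιW (ιV none) (ιW none) = (0, G.w0, G.b0, 0) := by
  unfold hidx
  rw [dif_neg (by rintro ⟨c, hc⟩; exact not_isEdge_none hc)]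

/-- the constraint bits are host inputs -/
theorem hostInputs (hφ : ∀ w i j, w ∉ B → φ w i = φ w j → i = j) :
    HostInputs (hostInst cm hinj cw ci τ φ B s ιV ιW)
      (dInputs (Fin N) (Fin N) d (Fintype.card (LT G LL T))) := by
  rintro g (⟨v, w, q, rfl⟩ | ⟨c, rfl⟩)
  · by_cases h0 : v = ιV none ∧ w = ιW none
    · left
      refine ⟨if cmap G cm (hidx cw ci τ φ B s ιV ιW v w) = q then 1 else 0, fun H => ?_⟩
      have : (hostInst cm hinj cw ci τ φ B s ιV ιW H).adj v w := Or.inl h0
      simp only [this, true_and]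
      rfl
    · by_cases h1 : ∃ c, isEdge φ B ιV ιW c v w
      · obtain ⟨c, hc⟩ := h1
        by_cases hq : cmap G cm (hidx cw ci τ φ B s ιV ιW v w) = q
        · right
          refine ⟨c, fun H => ?_⟩
          have e1 : ((hostInst cm hinj cw ci τ φ B s ιV ιW H).adj v w ∧
              (hostInst cm hinj cw ci τ φ B s ιV ιW H).map v w = q) ↔ c ∈ H := by
            constructor
            · rintro ⟨h | ⟨c', hc', h'⟩, -⟩
              · exact absurd h h0
              · rw [isEdge_unique hφ hc h']
                exact hc'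
            · intro h
              exact ⟨Or.inr ⟨c, h, hc⟩, hq⟩
          by_cases h : c ∈ H
          · rw [if_pos h]
            exact if_pos (e1.2 h)
          · rw [if_neg h]
            exact if_neg fun h' => h (e1.1 h')
        · left
          refine ⟨0, fun H => ?_⟩
          have e1 : ¬ ((hostInst cm hinj cw ci τ φ B s ιV ιW H).adj v w ∧
              (hostInst cm hinj cw ci τ φ B s ιV ιW H).map v w = q) := fun h => hq h.2
          simp only [e1, if_false]
      · left
        refine ⟨0, fun H => ?_⟩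
        have e1 : ¬ ((hostInst cm hinj cw ci τ φ B s ιV ιW H).adj v w ∧
            (hostInst cm hinj cw ci τ φ B s ιV ιW H).map v w = q) := by
          rintro ⟨h | ⟨c', _, h'⟩, -⟩
          · exact h0 h
          · exact h1 ⟨c', h'⟩
        simp only [e1, if_false]
  · exact Or.inl ⟨c, fun _ => rfl⟩

/-- host games without conflicts have value one -/
theorem host_yes (m0 : LL × Fin d) (hφ : ∀ w i j, w ∉ B → φ w i = φ w j → i = j)
    (S : Finset (((Fin n ⊕ Fin n) × Fin m) × (LL × Fin d))) (hS0 : NoConflict S) :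
    DYes (hostInst cm hinj cw ci τ φ B s ιV ιW (hT (gg C cm φ B s) S)) := by
  refine ⟨⟨ιV none, ιW none, Or.inl ⟨rfl, rfl⟩⟩, ?_⟩
  -- the labels
  let gV : Option (Fin n × Fin m) → Fin (Fintype.card (LT G LL T)) := fun o => match o with
    | none => eL G LL T (Sum.inl (cm 0 m0))
    | some q => eL G LL T (Sum.inl (labOf S m0 (Sum.inl q.1, q.2)).1)
  let gW : Option (Fin n × Fin m) → Fin (d * Fintype.card (LT G LL T)) := fun o => match o with
    | none => eR G LL T (Sum.inl m0)
    | some q => eR G LL T (Sum.inl (labOf S m0 (Sum.inr q.1, q.2)))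
  refine ⟨Function.extend ιV gV fun _ => eL G LL T (Sum.inl (cm 0 m0)),
    Function.extend ιW gW fun _ => eR G LL T (Sum.inl m0), ?_⟩
  rintro v w (⟨rfl, rfl⟩ | ⟨c, hc, hcv, hcw⟩)
  · rw [ιV.injective.extend_apply, ιW.injective.extend_apply]
    show cmap G cm (hidx cw ci τ φ B s ιV ιW (ιV none) (ιW none)) (eR G LL T (Sum.inl m0)) =
      eL G LL T (Sum.inl (cm 0 m0))
    rw [hidx_none]
    unfold cmap
    rw [Equiv.symm_apply_apply]
    rfl
  · have hm : (hostInst cm hinj cw ci τ φ B s ιV ιW (hT (gg C cm φ B s) S)).map v w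
        = cmap G cm (eidx cw ci τ s c.1.1) := by
      show cmap G cm (hidx cw ci τ φ B s ιV ιW v w) = _
      rw [hidx_of_isEdge hφ ⟨hcv, hcw⟩]
    rw [hm, hcv, hcw, ιV.injective.extend_apply, ιW.injective.extend_apply]
    obtain ⟨σ, τ', h1, h2, h3⟩ := mem_hT.1 hc
    have e1 : labOf S m0 (Sum.inl (φ c.1.1.1 c.1.1.2), c.2.1) = σ := labOf_eq hS0 h1
    have e2 : labOf S m0 (Sum.inr c.1.1.1, c.2.2) = τ' := labOf_eq hS0 h2
    show cmap G cm _ (eR G LL T (Sum.inl (labOf S m0 (Sum.inr c.1.1.1, c.2.2))))
      = eL G LL T (Sum.inl (labOf S m0 (Sum.inl (φ c.1.1.1 c.1.1.2), c.2.1)).1)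
    rw [e1, e2]
    unfold cmap
    rw [Equiv.symm_apply_apply]
    exact congrArg (fun z => eL G LL T (Sum.inl z)) h3

theorem adj_iff (x : Fin n ⊕ Fin n → Fin m) (v w : Fin N) :
    (hostInst cm hinj cw ci τ φ B s ιV ιW (hx (gg C cm φ B s) x)).adj v w ↔
      ∃ o, edgeOf φ B ιV ιW x o = (v, w) := by
  constructor
  · rintro (⟨rfl, rfl⟩ | ⟨c, hc, hcv, hcw⟩)
    · exact ⟨none, rfl⟩
    · refine ⟨some c.1, ?_⟩
      have h := mem_hx.1 hc
      rw [hcv, hcw]
      simp only [edgeOf]
      rw [h.1, h.2]
      rfl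
  · rintro ⟨_ | e, h⟩
    · have h1 := (Prod.mk.inj h).1
      have h2 := (Prod.mk.inj h).2
      exact Or.inl ⟨h1.symm, h2.symm⟩
    · have h1 := (Prod.mk.inj h).1
      have h2 := (Prod.mk.inj h).2
      refine Or.inr ⟨(e, x (Sum.inl (φ e.1.1 e.1.2)), x (Sum.inr e.1.1)), ?_, h1.symm, h2.symm⟩
      exact mem_hx.2 ⟨rfl, rfl⟩

/-- the part of a right label in the first component -/
def pr1 (m0 : LL × Fin d) : RT G LL T → LL × Fin d
  | Sum.inl m => m
  | Sum.inr _ => m0

/-- the part of a left label in the first component -/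
def pl1 (l0 : LL) : LT G LL T → LL
  | Sum.inl l => l
  | Sum.inr _ => l0

/-- the part of a right label in the base game -/
def pr2 (c0 : G.RC) : RT G LL T → G.RC
  | Sum.inl _ => c0
  | Sum.inr c => c.1

/-- the part of a left label in the base game -/
def pl2 (l0 : G.LC) : LT G LL T → G.LC
  | Sum.inl _ => l0
  | Sum.inr l => l.1

/-- the shift of a right label -/
def pr3 : RT G LL T → T
  | Sum.inl _ => 0
  | Sum.inr c => c.2

/-- the shift of a left label -/
def pl3 : LT G LL T → T
  | Sum.inl _ => 0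
  | Sum.inr l => l.2

/-- copies of the game graph have small value -/
theorem host_no (m0 : LL × Fin d) (c0 : G.RC)
    (hφ : ∀ w i j, w ∉ B → φ w i = φ w j → i = j) (ε : ℝ) (K : ℕ)
    (hK : ((3 * K : ℕ) : ℝ) < ε * ((Fintype.card (EE D B) : ℝ) + 1))
    (hs1 : ∀ (x : Fin n → LL × Fin d) (y : Fin n → LL),
      (univ.filter fun e : Fin n × Fin D => e.1 ∉ B ∧
        cm ((e.2 : ℕ) * C + (s e.1 e.2 : ℕ)) (x e.1) = y (φ e.1 e.2)).card < K)
    (hs2 : ∀ (x : Fin n → G.RC) (y : Fin n → G.LC), (satB G cw ci φ x y).card < K)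
    (hs3 : ∀ (x : Fin n → T) (y : Fin n → T),
      (univ.filter fun e : Fin n × Fin D => x e.1 + τ e.1 e.2 = y (φ e.1 e.2)).card < K)
    (x : Fin n ⊕ Fin n → Fin m) :
    DNo ε (hostInst cm hinj cw ci τ φ B s ιV ιW (hx (gg C cm φ B s) x)) := by
  intro A Cc
  set I := hostInst cm hinj cw ci τ φ B s ιV ιW (hx (gg C cm φ B s) x) with hI
  have hE : (univ.filter fun e : Fin N × Fin N => I.adj e.1 e.2).card
      = Fintype.card (EE D B) + 1 := by
    have h1 : (univ.filter fun e : Fin N × Fin N => I.adj e.1 e.2)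
        = univ.image (edgeOf φ B ιV ιW x) := by
      ext ⟨v, w⟩
      simp only [mem_filter, mem_univ, true_and, mem_image]
      exact adj_iff x v w
    rw [h1, card_image_of_injective _ (edgeOf_inj hφ x), card_univ, Fintype.card_option]
  let xx : Fin n → RT G LL T := fun w => (eR G LL T).symm (Cc (ιW (some (w, x (Sum.inr w)))))
  let yy : Fin n → LT G LL T := fun v => (eL G LL T).symm (A (ιV (some (v, x (Sum.inl v)))))
  set S1 : Finset (Fin n × Fin D) := univ.filter fun e : Fin n × Fin D => e.1 ∉ B ∧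
    cm ((e.2 : ℕ) * C + (s e.1 e.2 : ℕ)) (pr1 m0 (xx e.1)) = pl1 m0.1 (yy (φ e.1 e.2)) with hS1
  set S2 : Finset (Fin n × Fin D) := satB G cw ci φ (fun w => pr2 c0 (xx w))
    (fun v => pl2 (G.π G.w0 G.b0 c0) (yy v)) with hS2
  set S3 : Finset (Fin n × Fin D) := univ.filter fun e : Fin n × Fin D =>
    pr3 (xx e.1) + τ e.1 e.2 = pl3 (yy (φ e.1 e.2)) with hS3
  have hS : (univ.filter fun e : Fin N × Fin N => I.adj e.1 e.2 ∧
      I.map e.1 e.2 (Cc e.2) = A e.1).card ≤ 3 * K := by
    have h2 : (univ.filter fun e : Fin N × Fin N => I.adj e.1 e.2 ∧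
        I.map e.1 e.2 (Cc e.2) = A e.1) ⊆ insert (ιV none, ιW none)
        (((S1 ∪ S2) ∪ S3).image fun e => (ιV (some (φ e.1 e.2, x (Sum.inl (φ e.1 e.2)))),
            ιW (some (e.1, x (Sum.inr e.1))))) := by
      rintro ⟨v, w⟩ hvw
      simp only [mem_filter, mem_univ, true_and] at hvw
      obtain ⟨hadj, hmap⟩ := hvw
      rw [mem_insert]
      rcases hadj with ⟨rfl, rfl⟩ | ⟨c, hc, hcv, hcw⟩
      · exact Or.inl rfl
      · right
        rw [mem_image]
        have h := mem_hx.1 hc
        have e1 : c.2.1 = x (Sum.inl (φ c.1.1.1 c.1.1.2)) := h.1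
        have e2 : c.2.2 = x (Sum.inr c.1.1.1) := h.2
        refine ⟨c.1.1, ?_, ?_⟩
        · have hm : I.map v w = cmap G cm (eidx cw ci τ s c.1.1) := by
            show cmap G cm (hidx cw ci τ φ B s ιV ιW v w) = _
            rw [hidx_of_isEdge hφ ⟨hcv, hcw⟩]
          rw [hm] at hmap
          have key : emap G cm (eidx cw ci τ s c.1.1) (xx c.1.1.1) =
              yy (φ c.1.1.1 c.1.1.2) := by
            show emap G cm (eidx cw ci τ s c.1.1) ((eR G LL T).symm
              (Cc (ιW (some (c.1.1.1, x (Sum.inr c.1.1.1)))))) =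
              (eL G LL T).symm (A (ιV (some (φ c.1.1.1 c.1.1.2,
                x (Sum.inl (φ c.1.1.1 c.1.1.2))))))
            rw [← e1, ← e2, ← hcv, ← hcw, ← hmap]
            unfold cmap
            rw [Equiv.symm_apply_apply]
          rcases hxx : xx c.1.1.1 with m' | cc
          · rw [mem_union, mem_union]
            left; left
            rw [hS1, mem_filter]
            refine ⟨mem_univ _, c.1.2, ?_⟩
            rw [hxx] at key
            rw [hxx, ← key]
            rfl
          · by_cases hdum : G.dum cc.1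
            · rw [mem_union]
              right
              rw [hS3, mem_filter]
              refine ⟨mem_univ _, ?_⟩
              rw [hxx] at key
              rw [hxx, ← key]
              simp only [emap, pr3, pl3, if_pos hdum]
              rfl
            · rw [mem_union, mem_union]
              left; right
              rw [hS2, satB, mem_filter]
              refine ⟨mem_univ _, ?_⟩
              rw [hxx] at key
              unfold okB
              rw [← key]
              simp only [hxx]
              exact ⟨hdum, rfl⟩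
        · rw [← e1, ← e2, ← hcv, ← hcw]
    refine (card_le_card h2).trans ((card_insert_le _ _).trans ?_)
    have h3 := hs1 (fun w => pr1 m0 (xx w)) (fun v => pl1 m0.1 (yy v))
    have h4 := hs2 (fun w => pr2 c0 (xx w)) (fun v => pl2 (G.π G.w0 G.b0 c0) (yy v))
    have h5 := hs3 (fun w => pr3 (xx w)) (fun v => pl3 (yy v))
    have h6 := card_image_le (s := (S1 ∪ S2) ∪ S3)
      (f := fun e => (ιV (some (φ e.1 e.2, x (Sum.inl (φ e.1 e.2)))),
            ιW (some (e.1, x (Sum.inr e.1)))))
    have h7 := card_union_le (S1 ∪ S2) S3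
    have h8 := card_union_le S1 S2
    have e3 : S1.card < K := h3
    have e4 : S2.card < K := h4
    have e5 : S3.card < K := h5
    omega
  rw [hE]
  push_cast
  push_cast at hK
  refine lt_of_le_of_lt ?_ hK
  exact_mod_cast hS

end

end Pool.Agent.NH48.SD
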