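import Pool.Agent.NH48.SD.Host
import Pool.Agent.NH48.DA.KC

/-! # Local consistency of the host games -/

set_option autoImplicit false

open scoped Classical
open Finset

namespace Pool.Agent.NH48.SD

open H589DT
open H630VC (Prog marked)
open Pool.Agent.NH48.DA (gg Good undV undW undV_some undW_some undV_none undW_none below below_card
  PLab KCons mem_ein')

section

variable {d : ℕ} (G : Base d) {LL : Type} (T : Type) [Fintype LL] [Fintype T]
  {n D m N C : ℕ}

/-- the labels of the left vertices of the host -/
noncomputable def labV (cm : ℕ → LL × Fin d → LL) (m0 : LL × Fin d)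
    (ιV : Option (Fin n × Fin m) ↪ Fin N) (ρ : Fin n ⊕ Fin n → LL × Fin d) (v : Fin N) :
    Fin (Fintype.card (LT G LL T)) :=
  match undV ιV v with
  | none => eL G LL T (Sum.inl (cm 0 m0))
  | some u => eL G LL T (Sum.inl (ρ u).1)

/-- the labels of the right vertices of the host -/
noncomputable def labW (m0 : LL × Fin d)
    (ιW : Option (Fin n × Fin m) ↪ Fin N) (ρ : Fin n ⊕ Fin n → LL × Fin d) (w : Fin N) :
    Fin (d * Fintype.card (LT G LL T)) :=
  match undW ιW w with
  | none => eR G LL T (Sum.inl m0)
  | some u => eR G LL T (Sum.inl (ρ u))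

variable {G T} [AddCommGroup T]

/-- the host games pass the test of `k`-consistency -/
theorem host_kcons {cm : ℕ → LL × Fin d → LL}
    {hinj : ∀ t j l l', cm t (l, j) = cm t (l', j) → l = l'}
    {cw : Fin n → G.WB} {ci : Fin D → G.IB} {τ : Fin n → Fin D → T}
    {φ : Fin n → Fin D → Fin n} {B : Finset (Fin n)} {s : Fin n → Fin D → Fin C}
    {ιV ιW : Option (Fin n × Fin m) ↪ Fin N}
    (m0 : LL × Fin d) (hφ : ∀ w i j, w ∉ B → φ w i = φ w j → i = j) (k K : ℕ) (hk : k ≤ K)
    (F : Local (Fin n ⊕ Fin n) (LL × Fin d) K)
    (hF : ∀ S ρ, F.C S ρ → (gg C cm φ B s).SatOn S ρ)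
    (H : Finset (EE D B × Fin m × Fin m)) :
    KCons k (hostInst cm hinj cw ci τ φ B s ιV ιW H) := by
  refine ⟨{f | f.size ≤ k ∧ ∃ ρ, F.C (below ιV ιW f) ρ ∧
    (∀ v a, f.left v = some a → a = labV G T cm m0 ιV ρ v) ∧
    ∀ w b, f.right w = some b → b = labW G T m0 ιW ρ w}, ?_, ?_, ?_, ?_, ?_⟩
  · refine ⟨⟨fun _ => none, fun _ => none⟩, ?_, ?_⟩
    · simp [PLab.size]
    · obtain ⟨ρ, hρ⟩ := F.empty
      refine ⟨ρ, ?_, ?_, ?_⟩
      · have : below ιV ιW (⟨fun _ => none, fun _ => none⟩ :
            PLab (Fin N) (Fin N) d (Fintype.card (LT G LL T))) = ∅ := by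
          rw [below, filter_eq_empty_iff]
          simp
        rw [this]
        exact hρ
      · intro v a h
        simp at h
      · intro w b h
        simp at h
  · intro f hf
    exact hf.1
  · rintro f ⟨-, ρ, hρ, h1, h2⟩ v w a b hadj hv hw
    have ea := h1 v a hv
    have eb := h2 w b hw
    rw [ea, eb]
    rcases hadj with ⟨rfl, rfl⟩ | ⟨c, -, hcv, hcw⟩
    · show cmap G cm (hidx cw ci τ φ B s ιV ιW (ιV none) (ιW none))
        (labW G T m0 ιW ρ (ιW none)) = labV G T cm m0 ιV ρ (ιV none)
      rw [hidx_none]
      unfold labV labW cmap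
      rw [undV_none, undW_none]
      show eL G LL T (emap G cm _ ((eR G LL T).symm (eR G LL T (Sum.inl m0)))) =
        eL G LL T (Sum.inl (cm 0 m0))
      rw [Equiv.symm_apply_apply]
      rfl
    · show cmap G cm (hidx cw ci τ φ B s ιV ιW v w) (labW G T m0 ιW ρ w) =
        labV G T cm m0 ιV ρ v
      rw [hidx_of_isEdge hφ ⟨hcv, hcw⟩]
      have hS := hF _ _ hρ c.1 (mem_ein'.2 ⟨?_, ?_⟩)
      · have e1 : labW G T m0 ιW ρ w = eR G LL T (Sum.inl (ρ (Sum.inr c.1.1.1))) := by
          unfold labW
          rw [hcw, undW_some]
        have e2 : labV G T cm m0 ιV ρ v =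
            eL G LL T (Sum.inl (ρ (Sum.inl (φ c.1.1.1 c.1.1.2))).1) := by
          unfold labV
          rw [hcv, undV_some]
        rw [e1, e2]
        unfold cmap
        rw [Equiv.symm_apply_apply]
        exact congrArg (fun z => eL G LL T (Sum.inl z)) hS
      · refine mem_filter.2 ⟨mem_univ _, Or.inl ⟨v, ?_, ?_⟩⟩
        · rw [hv]; simp
        · rw [hcv, undV_some]
          rfl
      · refine mem_filter.2 ⟨mem_univ _, Or.inr ⟨w, ?_, ?_⟩⟩
        · rw [hw]; simp
        · rw [hcw, undW_some]
          rfl
  · rintro f ⟨hsz, ρ, hρ, h1, h2⟩ g ⟨hg1, hg2⟩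
    have hgv : ∀ v, g.left v ≠ none → f.left v ≠ none := by
      intro v hv
      obtain ⟨a, ha⟩ := Option.ne_none_iff_exists'.1 hv
      rw [hg1 v a ha]
      simp
    have hgw : ∀ w, g.right w ≠ none → f.right w ≠ none := by
      intro w hw
      obtain ⟨b, hb⟩ := Option.ne_none_iff_exists'.1 hw
      rw [hg2 w b hb]
      simp
    refine ⟨le_trans ?_ hsz, ρ, F.mono _ _ _ ?_ hρ, ?_, ?_⟩
    · unfold PLab.size
      apply Nat.add_le_add
      · exact card_le_card (monotone_filter_right _ fun v _ => hgv v)
      · exact card_le_card (monotone_filter_right _ fun w _ => hgw w)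
    · intro u hu
      rw [below, mem_filter] at hu ⊢
      rcases hu.2 with ⟨v, h3, h4⟩ | ⟨w, h3, h4⟩
      · exact ⟨mem_univ _, Or.inl ⟨v, hgv v h3, h4⟩⟩
      · exact ⟨mem_univ _, Or.inr ⟨w, hgw w h3, h4⟩⟩
    · intro v a h
      exact h1 v a (hg1 v a h)
    · intro w b h
      exact h2 w b (hg2 w b h)
  · rintro f ⟨hsz, ρ, hρ, h1, h2⟩ hlt
    have key : ∀ g : PLab (Fin N) (Fin N) d (Fintype.card (LT G LL T)), g.size ≤ k → below ιV ιW f ⊆ below ιV ιW g →
        ∃ ρ', F.C (below ιV ιW g) ρ' ∧ ∀ u ∈ below ιV ιW f, ρ' u = ρ u := by
      intro g hg hsub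
      obtain ⟨ρ', h3, h4⟩ := F.ext _ _ ρ hsub (((below_card ιV ιW g).trans hg).trans hk) hρ
      exact ⟨ρ', h4, h3⟩
    have keyV : ∀ ρ' : Fin n ⊕ Fin n → LL × Fin d, (∀ u ∈ below ιV ιW f, ρ' u = ρ u) →
        ∀ v a, f.left v = some a → a = labV G T cm m0 ιV ρ' v := by
      intro ρ' hρ' v a hv
      rw [h1 v a hv]
      unfold labV
      rcases hu : undV ιV v with _ | u
      · rfl
      · simp only
        rw [hρ' u (mem_filter.2 ⟨mem_univ _, Or.inl ⟨v, by rw [hv]; simp, hu⟩⟩)]
    have keyW : ∀ ρ' : Fin n ⊕ Fin n → LL × Fin d, (∀ u ∈ below ιV ιW f, ρ' u = ρ u) →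
        ∀ w b, f.right w = some b → b = labW G T m0 ιW ρ' w := by
      intro ρ' hρ' w b hw
      rw [h2 w b hw]
      unfold labW
      rcases hu : undW ιW w with _ | u
      · rfl
      · simp only
        rw [hρ' u (mem_filter.2 ⟨mem_univ _, Or.inr ⟨w, by rw [hw]; simp, hu⟩⟩)]
    constructor
    · intro v
      by_cases hv : f.left v = none
      · -- the domain of the extension
        set g0 : PLab (Fin N) (Fin N) d (Fintype.card (LT G LL T)) :=
          ⟨Function.update f.left v (some (eL G LL T (Sum.inl m0.1))), f.right⟩ with hg0
        have hsize : g0.size ≤ k := by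
          have e1 : (univ.filter fun v' => g0.left v' ≠ none) ⊆
              insert v (univ.filter fun v' => f.left v' ≠ none) := by
            intro v' hv'
            rw [mem_filter] at hv'
            rw [mem_insert]
            by_cases h : v' = v
            · exact Or.inl h
            · right
              rw [mem_filter]
              refine ⟨mem_univ _, ?_⟩
              have h5 := hv'.2
              simp only [hg0, Function.update_of_ne h] at h5
              exact h5
          have e2 := (card_le_card e1).trans (card_insert_le _ _)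
          unfold PLab.size at hlt ⊢
          have e3 : (univ.filter fun w => g0.right w ≠ none) =
            univ.filter fun w => f.right w ≠ none := rfl
          rw [e3]
          omega
        have hsub : below ιV ιW f ⊆ below ιV ιW g0 := by
          intro u hu
          rw [below, mem_filter] at hu ⊢
          rcases hu.2 with ⟨v', h3, h4⟩ | ⟨w, h3, h4⟩
          · refine ⟨mem_univ _, Or.inl ⟨v', ?_, h4⟩⟩
            by_cases h : v' = v
            · rw [h, hg0]
              simp
            · simp only [hg0, Function.update_of_ne h]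
              exact h3
          · exact ⟨mem_univ _, Or.inr ⟨w, h3, h4⟩⟩
        obtain ⟨ρ', h3, h4⟩ := key g0 hsize hsub
        refine ⟨⟨Function.update f.left v (some (labV G T cm m0 ιV ρ' v)), f.right⟩,
          ⟨?_, ρ', ?_, ?_, ?_⟩, ⟨?_, ?_⟩, ?_⟩
        · refine le_trans (le_of_eq ?_) hsize
          unfold PLab.size
          congr 1
          apply congrArg card
          apply filter_congr
          intro v' _
          by_cases h : v' = v
          · rw [h, hg0]
            simp
          · simp only [hg0, Function.update_of_ne h]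
        · refine F.mono _ _ _ ?_ h3
          intro u hu
          rw [below, mem_filter] at hu ⊢
          rcases hu.2 with ⟨v', h5, h6⟩ | ⟨w, h5, h6⟩
          · refine ⟨mem_univ _, Or.inl ⟨v', ?_, h6⟩⟩
            by_cases h : v' = v
            · rw [h, hg0]
              simp
            · simp only [hg0, Function.update_of_ne h] at h5 ⊢
              exact h5
          · exact ⟨mem_univ _, Or.inr ⟨w, h5, h6⟩⟩
        · intro v' a h5
          by_cases h : v' = v
          · subst h
            simp only [Function.update_self, Option.some.injEq] at h5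
            exact h5.symm
          · simp only [Function.update_of_ne h] at h5
            exact keyV ρ' h4 v' a h5
        · intro w b h5
          exact keyW ρ' h4 w b h5
        · intro v' a h5
          have h : v' ≠ v := by
            rintro rfl
            rw [hv] at h5
            simp at h5
          simp only [Function.update_of_ne h]
          exact h5
        · intro w b h5
          exact h5
        · simp
      · exact ⟨f, ⟨hsz, ρ, hρ, h1, h2⟩, ⟨fun _ _ h => h, fun _ _ h => h⟩, hv⟩
    · intro w
      by_cases hw : f.right w = none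
      · -- the domain of the extension
        set g0 : PLab (Fin N) (Fin N) d (Fintype.card (LT G LL T)) :=
          ⟨f.left, Function.update f.right w (some (eR G LL T (Sum.inl m0)))⟩ with hg0
        have hsize : g0.size ≤ k := by
          have e1 : (univ.filter fun v' => g0.right v' ≠ none) ⊆
              insert w (univ.filter fun v' => f.right v' ≠ none) := by
            intro v' hv'
            rw [mem_filter] at hv'
            rw [mem_insert]
            by_cases h : v' = w
            · exact Or.inl h
            · right
              rw [mem_filter]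
              refine ⟨mem_univ _, ?_⟩
              have h5 := hv'.2
              simp only [hg0, Function.update_of_ne h] at h5
              exact h5
          have e2 := (card_le_card e1).trans (card_insert_le _ _)
          unfold PLab.size at hlt ⊢
          have e3 : (univ.filter fun w => g0.left w ≠ none) =
            univ.filter fun w => f.left w ≠ none := rfl
          rw [e3]
          omega
        have hsub : below ιV ιW f ⊆ below ιV ιW g0 := by
          intro u hu
          rw [below, mem_filter] at hu ⊢
          rcases hu.2 with ⟨v', h3, h4⟩ | ⟨v', h3, h4⟩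
          · exact ⟨mem_univ _, Or.inl ⟨v', h3, h4⟩⟩
          · refine ⟨mem_univ _, Or.inr ⟨v', ?_, h4⟩⟩
            by_cases h : v' = w
            · rw [h, hg0]
              simp
            · simp only [hg0, Function.update_of_ne h]
              exact h3
        obtain ⟨ρ', h3, h4⟩ := key g0 hsize hsub
        refine ⟨⟨f.left, Function.update f.right w (some (labW G T m0 ιW ρ' w))⟩,
          ⟨?_, ρ', ?_, ?_, ?_⟩, ⟨?_, ?_⟩, ?_⟩
        · refine le_trans (le_of_eq ?_) hsize
          unfold PLab.size
          congr 1
          apply congrArg card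
          apply filter_congr
          intro v' _
          by_cases h : v' = w
          · rw [h, hg0]
            simp
          · simp only [hg0, Function.update_of_ne h]
        · refine F.mono _ _ _ ?_ h3
          intro u hu
          rw [below, mem_filter] at hu ⊢
          rcases hu.2 with ⟨v', h5, h6⟩ | ⟨v', h5, h6⟩
          · exact ⟨mem_univ _, Or.inl ⟨v', h5, h6⟩⟩
          · refine ⟨mem_univ _, Or.inr ⟨v', ?_, h6⟩⟩
            by_cases h : v' = w
            · rw [h, hg0]
              simp
            · simp only [hg0, Function.update_of_ne h] at h5 ⊢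
              exact h5
        · intro v' a h5
          exact keyV ρ' h4 v' a h5
        · intro v' b h5
          by_cases h : v' = w
          · subst h
            simp only [Function.update_self, Option.some.injEq] at h5
            exact h5.symm
          · simp only [Function.update_of_ne h] at h5
            exact keyW ρ' h4 v' b h5
        · intro v' a h5
          exact h5
        · intro v' b h5
          have h : v' ≠ w := by
            rintro rfl
            rw [hw] at h5
            simp at h5
          simp only [Function.update_of_ne h]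
          exact h5
        · simp
      · exact ⟨f, ⟨hsz, ρ, hρ, h1, h2⟩, ⟨fun _ _ h => h, fun _ _ h => h⟩, hw⟩

end

end Pool.Agent.NH48.SD
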