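import Pool.Agent.NH48.SD.Sol
import Pool.Agent.NH48.DA.Main
import Pool.Agent.NH48.SA.Shift

/-! # The lower bound for circuits with access to SDA -/

set_option autoImplicit false

open scoped Classical
open Finset

namespace Pool.Agent.NH48.SD

open H589DT
open H630VC (Prog marked)
open Pool.Agent.NH48.DA (gg Good cmPQ cmPQ_good gg_surj ein_le KCons BlpAip)

/-- choice of the moduli and of the degree -/
theorem choice_pq (d k b D1 : ℕ) (hb : 1 ≤ b) : ∃ p q D0 : ℕ, p.Prime ∧ q.Prime ∧ p ≠ q ∧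
    (b * D0) * 2 ^ k ≤ p ∧ (b * D0) * 2 ^ k ≤ q ∧ d * (p * q) ^ 2 < 2 ^ (b * D0) ∧
    D1 ≤ b * D0 := by
  have h := tendsto_pow_const_div_const_pow_of_one_lt 4 (r := (2 : ℝ)) (by norm_num)
  obtain ⟨c, hc⟩ : ∃ c : ℝ, c = (d + 1) * (64 * (2 * 2 ^ k) ^ 4) := ⟨_, rfl⟩
  have hc0 : 0 < c := by rw [hc]; positivity
  have h1 := (h.eventually (gt_mem_nhds (show (0 : ℝ) < 1 / c by positivity)))
  obtain ⟨D0, hD0⟩ := Filter.eventually_atTop.1 h1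
  obtain ⟨D, hD⟩ : ∃ D, D = b * (D0 + D1 + 1) := ⟨_, rfl⟩
  have hDge : D0 + D1 + 1 ≤ D := by
    rw [hD]
    exact Nat.le_mul_of_pos_left _ hb
  have h2 := hD0 D (by omega)
  rw [div_lt_div_iff₀ (by positivity) hc0] at h2
  have hk : 1 ≤ 2 ^ k := Nat.one_le_two_pow
  have hDk : D * 2 ^ k ≠ 0 := by
    have : 0 < D * 2 ^ k := Nat.mul_pos (by omega) hk
    omega
  obtain ⟨p, hp, hp1, hp2⟩ := Nat.exists_prime_lt_and_le_two_mul (D * 2 ^ k) hDk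
  obtain ⟨q, hq, hq1, hq2⟩ := Nat.exists_prime_lt_and_le_two_mul p hp.pos.ne'
  refine ⟨p, q, D0 + D1 + 1, hp, hq, hq1.ne, ?_, ?_, ?_, ?_⟩
  · rw [← hD]
    exact hp1.le
  · rw [← hD]
    exact (hp1.trans hq1).le
  · rw [← hD]
    have h3 : p * q ≤ 8 * (D * 2 ^ k) ^ 2 := by
      calc p * q ≤ (2 * (D * 2 ^ k)) * (2 * (2 * (D * 2 ^ k))) :=
            Nat.mul_le_mul hp2 (hq2.trans (Nat.mul_le_mul_left _ hp2))
        _ = 8 * (D * 2 ^ k) ^ 2 := by ring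
    have h4 : (d : ℝ) * ((p : ℝ) * (q : ℝ)) ^ 2 < (2 : ℝ) ^ D := by
      have h5 : ((p * q : ℕ) : ℝ) ≤ ((8 * (D * 2 ^ k) ^ 2 : ℕ) : ℝ) := Nat.cast_le.2 h3
      push_cast at h5
      have h6 : ((p : ℝ) * q) ^ 2 ≤ (8 * ((D : ℝ) * 2 ^ k) ^ 2) ^ 2 :=
        pow_le_pow_left₀ (by positivity) h5 2
      have hk0 : (0 : ℝ) < 2 ^ k := by positivity
      have h7 : (d : ℝ) * ((p : ℝ) * q) ^ 2 ≤ ((d : ℝ) + 1) * (8 * ((D : ℝ) * 2 ^ k) ^ 2) ^ 2 :=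
        mul_le_mul (by linarith) h6 (by positivity) (by positivity)
      have h8 : ((d : ℝ) + 1) * (8 * ((D : ℝ) * 2 ^ k) ^ 2) ^ 2 =
          (D : ℝ) ^ 4 * (((d : ℝ) + 1) * (64 * (2 ^ k) ^ 4)) := by ring
      have h9 : (D : ℝ) ^ 4 * (((d : ℝ) + 1) * (64 * (2 ^ k) ^ 4)) ≤ (D : ℝ) ^ 4 * c := by
        rw [hc]
        have h10 : ((2 : ℝ) ^ k) ^ 4 ≤ (2 * 2 ^ k) ^ 4 :=
          pow_le_pow_left₀ hk0.le (by linarith) 4
        gcongr
      linarith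
    exact_mod_cast h4
  · rw [← hD]
    omega

/-- the inputs, with the functions that are blind to games accepted by the relaxations -/
theorem hostInputs_blind {p q d n D m N C : ℕ} [Fact p.Prime] [Fact q.Prime] (hpq : p ≠ q)
    (hd : 2 ≤ d) {G : Base d} {T : Type} [Fintype T] [AddCommGroup T]
    {hinj : ∀ t j l l', cmPQ p q d t (l, j) = cmPQ p q d t (l', j) → l = l'}
    {cw : Fin n → G.WB} {ci : Fin D → G.IB} {τ : Fin n → Fin D → T}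
    {φ : Fin n → Fin D → Fin n} {B : Finset (Fin n)} {s : Fin n → Fin D → Fin C}
    {ιV ιW : Option (Fin n × Fin m) ↪ Fin N} (hφ : ∀ w i j, w ∉ B → φ w i = φ w j → i = j)
    (cv : Fin n → G.VB) (hcv : ∀ w i, cv (φ w i) = G.nb (cw w) (ci i))
    (k K : ℕ) (hk : k ≤ K) (F : Local (Fin n ⊕ Fin n) ((ZMod p × ZMod q) × Fin d) K)
    (hF : ∀ S ρ, F.C S ρ → (gg C (cmPQ p q d) φ B s).SatOn S ρ) :
    HostInputs (hostInst (cmPQ p q d) hinj cw ci τ φ B s ιV ιW)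
      (dInputs (Fin N) (Fin N) d (Fintype.card (LT G (ZMod p × ZMod q) T)) ∪
        BlindS (Fin N) (Fin N) d (Fintype.card (LT G (ZMod p × ZMod q) T)) k) := by
  rintro g (hg | ⟨c, hc⟩)
  · exact hostInputs hφ g hg
  · exact Or.inl ⟨c, fun H => hc _ (host_sda hφ cv hcv H) (host_blpAip hpq hd H)
      (host_kcons ((0, 0), ⟨0, by omega⟩) hφ k K hk F hF H)⟩

theorem RC_nonempty {d : ℕ} (G : Base d) : Nonempty G.RC := by
  by_contra h
  rw [not_nonempty_iff] at h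
  have h1 := G.Ys
  rw [Fintype.sum_empty] at h1
  exact absurd h1 (by norm_num)

/-- the conditions on the size parameter -/
theorem main_L (d : ℕ) (hd : 2 ≤ d) (ε : ℝ) (hε : 0 < ε) :
    ∃ R L1 P : ℕ, 1 ≤ R ∧ 1 ≤ P ∧ ∀ L : ℕ, L1 ≤ L → ∀ N : ℕ, 64 * P * L ^ 13 + 1 ≤ N →
      ∀ kc ≤ L,
      ∀ (Ω : Type) [Fintype Ω] [Nonempty Ω] (l : Ω → List (DGame (Fin N) (Fin N) d R → ℝ)),
      (∀ ω, Prog (dInputs (Fin N) (Fin N) d R ∪ BlindS (Fin N) (Fin N) d R kc) (l ω)) →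
      DDecides ε l → ∃ ω, 2 ^ L ≤ (l ω).length := by
  obtain ⟨κ, hκ⟩ : ∃ κ, κ = Nat.ceil (32 / ε) := ⟨_, rfl⟩
  have hκ1 : 32 / ε ≤ (κ : ℝ) := by rw [hκ]; exact Nat.le_ceil _
  obtain ⟨hc, hhc⟩ : ∃ hc, hc = Nat.ceil (64 / ε) := ⟨_, rfl⟩
  have hhc1 : 64 / ε ≤ (hc : ℝ) := by rw [hhc]; exact Nat.le_ceil _
  obtain ⟨G, hG⟩ := exists_base d hd (1 / 2 ^ hc) (by positivity)
  obtain ⟨PV, hPV⟩ : ∃ PV, PV = Fintype.card G.VB := ⟨_, rfl⟩
  obtain ⟨PW, hPW⟩ : ∃ PW, PW = Fintype.card G.WB := ⟨_, rfl⟩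
  obtain ⟨b, hb⟩ : ∃ b, b = Fintype.card G.IB := ⟨_, rfl⟩
  have hPV1 : 1 ≤ PV := by
    rw [hPV]
    exact Fintype.card_pos_iff.2 ⟨G.nb G.w0 G.b0⟩
  have hPW1 : 1 ≤ PW := by
    rw [hPW]
    exact Fintype.card_pos_iff.2 ⟨G.w0⟩
  have hb1 : 1 ≤ b := by
    rw [hb]
    exact Fintype.card_pos_iff.2 ⟨G.b0⟩
  obtain ⟨p, q, D0, hp, hq, hpq, hpD, hqD, hD, hDD⟩ := choice_pq d κ b
    (Nat.ceil (64 / ε) + Fintype.card G.RC * Fintype.card G.LC + 3) hb1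
  obtain ⟨D, hDdef⟩ : ∃ D, D = b * D0 := ⟨_, rfl⟩
  rw [← hDdef] at hpD hqD hD hDD
  have : Fact p.Prime := ⟨hp⟩
  have : Fact q.Prime := ⟨hq⟩
  obtain ⟨C, hC⟩ : ∃ C, C = 2 ^ κ := ⟨_, rfl⟩
  rw [← hC] at hpD hqD
  have hC1 : 1 ≤ C := by rw [hC]; exact Nat.one_le_two_pow
  obtain ⟨T, iT, aT, hT'⟩ : ∃ (T : Type) (_ : Fintype T) (_ : AddCommGroup T),
      Fintype.card T = 2 ^ (κ + 1) := by
    have : NeZero (2 ^ (κ + 1)) := ⟨by positivity⟩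
    exact ⟨ZMod (2 ^ (κ + 1)), inferInstance, inferInstance, ZMod.card _⟩
  obtain ⟨LL, hLL⟩ : ∃ LL, LL = Fintype.card (ZMod p × ZMod q) := ⟨_, rfl⟩
  have hcLL : LL = p * q := by rw [hLL, Fintype.card_prod, ZMod.card, ZMod.card]
  have hLL1 : 1 ≤ LL := by rw [hcLL]; exact Nat.mul_pos hp.pos hq.pos
  have hgood : Good (cmPQ p q d) D C := cmPQ_good p q d D C hpq hpD hqD hd
  have hinj : ∀ t j l l', cmPQ p q d t (l, j) = cmPQ p q d t (l', j) → l = l' := hgood.inj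
  set r := 2 * (d * LL) + 4 with hr
  set h := 3 * r with hh
  obtain ⟨A1, hA1⟩ : ∃ A1, A1 = (8 * (6 * PV * 2 ^ D)) ^ (2 * (2 * h)) * PV := ⟨_, rfl⟩
  obtain ⟨A2, hA2⟩ : ∃ A2, A2 = 8 * (r * (r * (6 * PV * 2 ^ D) ^ r)) := ⟨_, rfl⟩
  obtain ⟨L0, hL0⟩ := pow_le_two_pow
  obtain ⟨R, hR⟩ : ∃ R, R = Fintype.card (LT G (ZMod p × ZMod q) T) := ⟨_, rfl⟩
  have hR1 : 1 ≤ R := by
    rw [hR]
    exact Fintype.card_pos_iff.2 ⟨Sum.inl (0, 0)⟩
  refine ⟨R, A1 + A2 + L0 + 64 * (h + 1) ^ 2 + 1024 * (PV * PW * (d * LL)) ^ 2 +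
    Nat.ceil (10 / ε) + 2, PV * PW, hR1, Nat.mul_pos hPV1 hPW1, ?_⟩
  intro L hL N hN kc hkc Ω _ _ l hl hdec
  have hL2 : 2 ≤ L := by omega
  -- the graph
  obtain ⟨n1, hn1⟩ : ∃ n1, n1 = PW * L ^ 3 := ⟨_, rfl⟩
  obtain ⟨n2, hn2⟩ : ∃ n2, n2 = PV * L ^ 3 := ⟨_, rfl⟩
  obtain ⟨n, hn⟩ : ∃ n, n = PV * PW * L ^ 3 := ⟨_, rfl⟩
  obtain ⟨M, hM⟩ : ∃ M, M = L ^ 2 := ⟨_, rfl⟩
  obtain ⟨Q, hQ⟩ : ∃ Q, Q = L ^ 9 := ⟨_, rfl⟩
  obtain ⟨m, hm⟩ : ∃ m, m = 64 * L ^ 10 := ⟨_, rfl⟩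
  have hL3 : L ≤ L ^ 3 := Nat.le_self_pow (by norm_num) L
  have hL3n1 : L ^ 3 ≤ n1 := by
    rw [hn1]
    exact Nat.le_mul_of_pos_left _ hPW1
  have hL3n : L ^ 3 ≤ n := by
    rw [hn]
    exact Nat.le_mul_of_pos_left _ (Nat.mul_pos hPV1 hPW1)
  have hLn : L ≤ n := hL3.trans hL3n
  have heV : Fintype.card (G.VB × Fin n1) = n := by
    rw [Fintype.card_prod, Fintype.card_fin, ← hPV, hn1, hn, mul_assoc]
  have heW : Fintype.card (G.WB × Fin n2) = n := by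
    rw [Fintype.card_prod, Fintype.card_fin, ← hPW, hn2, hn]
    ring
  have heD : Fintype.card (G.IB × Fin D0) = D := by
    rw [Fintype.card_prod, Fintype.card_fin, ← hb, hDdef]
  let eV : G.VB × Fin n1 ≃ Fin n := Fintype.equivFinOfCardEq heV
  let eW : G.WB × Fin n2 ≃ Fin n := Fintype.equivFinOfCardEq heW
  let eD : G.IB × Fin D0 ≃ Fin D := Fintype.equivFinOfCardEq heD
  have hD3 : 3 ≤ D := by omega
  have hn0 : 1 ≤ n := by omega
  have hnD3 : 3 ≤ n * D := hD3.trans (Nat.le_mul_of_pos_left _ hn0)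
  -- the number `K`
  obtain ⟨K, hKdef⟩ : ∃ K, K = Nat.ceil (ε * (n * D : ℕ) / 16) := ⟨_, rfl⟩
  have hK1 : ε * (n * D : ℕ) / 16 ≤ (K : ℝ) := by rw [hKdef]; exact Nat.le_ceil _
  have hK2 : (K : ℝ) < ε * (n * D : ℕ) / 16 + 1 := by
    rw [hKdef]
    exact Nat.ceil_lt_add_one (by positivity)
  have hnDpos : (0 : ℝ) < (n * D : ℕ) := by exact_mod_cast (by omega : 0 < n * D)
  -- the base part
  have hKb : 3 * (n * D) + 3 ≤ hc * K := by
    have h4 : (4 * (n * D : ℕ) : ℝ) ≤ hc * K := by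
      calc (4 * (n * D : ℕ) : ℝ) = (64 / ε) * (ε * (n * D : ℕ) / 16) := by field_simp; ring
        _ ≤ hc * K := mul_le_mul hhc1 hK1 (by positivity) (by positivity)
    have h5 : 4 * (n * D) ≤ hc * K := by exact_mod_cast h4
    omega
  have hlab : Fintype.card G.RC * Fintype.card G.LC ≤ 2 ^ D := by
    have h6 : D < 2 ^ D := Nat.lt_two_pow_self
    omega
  have hBad := card_Bad3 G eV eW eD (by omega : 1 ≤ n1) hc K hG hlab hKb
  obtain ⟨ψ, hψ3, B, hB, hsp, hgi⟩ := exists_good (FF G eV eW eD) (FF_inj G eV eW eD) PV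
    (by rw [hn, hn1, mul_assoc]) hPV1 (2 * h) r (by omega) (by rw [← hA1]; omega)
    (by rw [← hA2]; omega) _ hBad
  obtain ⟨φ, hφdef⟩ : ∃ φ, φ = phi (FF G eV eW eD) ψ := ⟨_, rfl⟩
  rw [← hφdef] at hsp hgi
  have hφ := phi_inj (fun S hS hS2 => hgi S hS (hS2.trans (by omega)))
  have hs2 : ∀ (x : Fin n → G.RC) (y : Fin n → G.LC),
      (satB G (cW G eW) (cI G eD) φ x y).card < K := by
    intro x y
    by_contra hcon
    push Not at hcon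
    apply hψ3
    unfold Bad3
    rw [mem_filter]
    refine ⟨mem_univ _, x, y, ?_⟩
    rw [← hφdef]
    exact hcon
  have hcv : ∀ w i, cV G eV (φ w i) = G.nb (cW G eW w) (cI G eD i) := by
    intro w i
    rw [hφdef]
    exact cV_phi G eV eW eD ψ w i
  -- the number of edges
  have hEE := card_EE (D := D) B
  have hE2 : n * D ≤ 2 * Fintype.card (EE D B) := by
    rw [hEE]
    calc n * D ≤ (2 * (n - B.card)) * D := Nat.mul_le_mul_right _ (by omega)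
      _ = _ := by ring
  set EC := Fintype.card (EE D B) with hEC
  have hE2r : ((n * D : ℕ) : ℝ) ≤ 2 * EC := by exact_mod_cast hE2
  have hECr : (5 : ℝ) ≤ ε * EC := by
    have h1 : (10 / ε : ℝ) ≤ L := (Nat.le_ceil _).trans (Nat.cast_le.2 (by omega))
    have h2 : L ≤ n * D := hLn.trans (Nat.le_mul_of_pos_right n (by omega))
    have h3 : (L : ℝ) ≤ (n * D : ℕ) := by exact_mod_cast h2
    have h4 : (10 / ε : ℝ) ≤ 2 * EC := (h1.trans h3).trans hE2r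
    rw [div_le_iff₀ hε] at h4
    linarith
  have hKlt : ((3 * K : ℕ) : ℝ) < ε * ((EC : ℝ) + 1) := by
    push_cast
    have h1 : ε * (n * D : ℕ) ≤ ε * (2 * EC) := mul_le_mul_of_nonneg_left hE2r hε.le
    nlinarith
  -- the first part
  have hpK : (d * Fintype.card (ZMod p × ZMod q) ^ 2) ^ n * 2 ^ (D * n) < C ^ K := by
    rw [← hLL, hcLL]
    have h1 : 2 * (D * n) ≤ κ * K := by
      have h4 : (2 * (n * D : ℕ) : ℝ) ≤ κ * K := by
        calc (2 * (n * D : ℕ) : ℝ) = (32 / ε) * (ε * (n * D : ℕ) / 16) := by field_simp; ring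
          _ ≤ κ * K := mul_le_mul hκ1 hK1 (by positivity) (by positivity)
      have h5 : 2 * (n * D) ≤ κ * K := by exact_mod_cast h4
      calc 2 * (D * n) = 2 * (n * D) := by ring
        _ ≤ _ := h5
    have hn1' : n ≠ 0 := by omega
    calc (d * (p * q) ^ 2) ^ n * 2 ^ (D * n) < (2 ^ D) ^ n * 2 ^ (D * n) := by
          apply Nat.mul_lt_mul_of_pos_right _ (by positivity)
          exact Nat.pow_lt_pow_left hD hn1'
      _ = 2 ^ (2 * (D * n)) := by rw [← pow_mul, two_mul, pow_add]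
      _ ≤ 2 ^ (κ * K) := Nat.pow_le_pow_right (by norm_num) h1
      _ = C ^ K := by rw [hC, pow_mul]
  obtain ⟨s, hs1⟩ := hgood.small n K hC1 φ B hpK
  -- the dummies
  have hTK : Fintype.card T ^ (Fintype.card (Fin n) + Fintype.card (Fin n)) *
      2 ^ Fintype.card (Fin n × Fin D) < Fintype.card T ^ K := by
    rw [hT', Fintype.card_prod, Fintype.card_fin, Fintype.card_fin, ← pow_mul, ← pow_mul,
      ← pow_add]
    apply Nat.pow_lt_pow_right (by norm_num)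
    have h1 : (64 / ε : ℝ) ≤ D := (Nat.le_ceil _).trans (Nat.cast_le.2 (by omega))
    have h2 : (4 * n : ℝ) ≤ K := by
      refine le_trans ?_ hK1
      rw [div_le_iff₀ hε] at h1
      push_cast
      have h3 : (0 : ℝ) ≤ n := Nat.cast_nonneg _
      nlinarith
    have h4 : (32 : ℝ) < ε * (κ + 1) := by
      rw [div_le_iff₀ hε] at hκ1
      nlinarith
    have h5 : (((κ + 1) * (n + n) + n * D : ℕ) : ℝ) < (((κ + 1) * K : ℕ) : ℝ) := by
      push_cast at hK1 hnDpos ⊢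
      have h6 : ((κ : ℝ) + 1) * (4 * n) ≤ (κ + 1) * K :=
        mul_le_mul_of_nonneg_left h2 (by positivity)
      have h7 : ((κ : ℝ) + 1) * (ε * (n * D) / 16) ≤ (κ + 1) * K :=
        mul_le_mul_of_nonneg_left hK1 (by positivity)
      have h8 : 32 * ((n : ℝ) * D) < ε * (κ + 1) * (n * D) :=
        mul_lt_mul_of_pos_right h4 hnDpos
      nlinarith
    exact_mod_cast h5
  obtain ⟨α, hα⟩ := Pool.Agent.NH48.SA.exists_shift (T := T)
    (fun e : Fin n × Fin D => φ e.1 e.2) (fun e : Fin n × Fin D => e.1) K hTK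
  have hs3 : ∀ (x : Fin n → T) (y : Fin n → T), (univ.filter fun e : Fin n × Fin D =>
      x e.1 + (fun w i => α (w, i)) e.1 e.2 = y (φ e.1 e.2)).card < K := fun x y => hα y x
  -- local consistency
  set Γ := gg C (cmPQ p q d) φ B s with hΓ
  have hGgirth : Γ.Girth r := fun S hS hSr =>
    lt_of_le_of_lt (ein_le (cmPQ p q d) φ B s S) (hgi S hS hSr)
  have hGsparse : Γ.Sparse (2 * h) (8 * (h + 1) * L) := by
    intro S hS
    refine (ein_le (cmPQ p q d) φ B s S).trans (hsp S ?_)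
    calc S.card ^ 2 ≤ (8 * (h + 1) * L) ^ 2 := Nat.pow_le_pow_left hS 2
      _ = (64 * (h + 1) ^ 2) * L ^ 2 := by ring
      _ ≤ L * L ^ 2 := Nat.mul_le_mul_right _ (by omega)
      _ = L ^ 3 := by ring
      _ ≤ n := hL3n
  have hmix : Γ.Mixing r := by
    have := hgood.mixing (by omega) n φ B s
    rwa [← hLL] at this
  have : Nonempty ((ZMod p × ZMod q) × Fin d) := ⟨((0, 0), ⟨0, by omega⟩)⟩
  obtain ⟨F, hF⟩ := lo_all _ _ _ Γ r h (8 * (h + 1) * L) (2 * L) (by omega) le_rfl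
    (gg_surj hgood (by omega) φ B s) hmix hGgirth hGsparse
    (by ring_nf; exact le_rfl)
  -- parameters of the approximation
  obtain ⟨qq, hqq⟩ : ∃ qq, qq = d * LL := ⟨_, rfl⟩
  rw [← hqq] at hL
  have hmpos : 0 < m := by rw [hm]; positivity
  have : NeZero m := ⟨hmpos.ne'⟩
  have hcardV : Fintype.card (Option (Fin n × Fin m)) ≤ Fintype.card (Fin N) := by
    rw [Fintype.card_option, Fintype.card_prod, Fintype.card_fin, Fintype.card_fin,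
      Fintype.card_fin]
    calc n * m + 1 = 64 * (PV * PW) * L ^ 13 + 1 := by rw [hn, hm]; ring
      _ ≤ N := hN
  obtain ⟨ιV⟩ := Function.Embedding.nonempty_of_card_le hcardV
  obtain ⟨f, hf, hI⟩ := hdec
  have hcardΛ : Fintype.card ((ZMod p × ZMod q) × Fin d) = qq := by
    rw [Fintype.card_prod, ← hLL, Fintype.card_fin, mul_comm, hqq]
  have hcardU : Fintype.card (Fin n ⊕ Fin n) = 2 * n := by
    rw [Fintype.card_sum, Fintype.card_fin]; ring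
  have hQ1 : 1 ≤ Q := by rw [hQ]; exact Nat.one_le_pow _ _ (by omega)
  have hM1 : 1 ≤ M := by rw [hM]; exact Nat.one_le_pow _ _ (by omega)
  have hq1 : 1 ≤ qq := by rw [hqq]; exact Nat.mul_pos (by omega) hLL1
  have hPP : 1 ≤ PV * PW := Nat.mul_pos hPV1 hPW1
  have hqL : 1024 * (PV * PW * qq) ^ 2 ≤ L := by omega
  obtain ⟨c0⟩ := RC_nonempty G
  subst hR
  refine generic ho_all t_NC Γ L M Q F hF hL2 hM1 hQ1 ?_ ?_ ?_
    (hostInst (cmPQ p q d) hinj (cW G eW) (cI G eD) (fun w i => α (w, i)) φ B s ιV ιV) _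
    (hostInputs_blind hpq hd hφ (cV G eV) hcv kc (2 * L) (by omega) F hF) Ω l hl f hf ?_ ?_
  · rw [Fintype.card_fin, hm, hQ]
    apply le_of_eq
    ring
  · rw [hcardU, Fintype.card_fin, hcardΛ]
    have hle : 1024 * (PV * PW) * qq ^ 2 ≤ L := by
      refine le_trans ?_ hqL
      have h1 : PV * PW ≤ (PV * PW) ^ 2 := Nat.le_self_pow (by norm_num) _
      calc 1024 * (PV * PW) * qq ^ 2 ≤ 1024 * (PV * PW) ^ 2 * qq ^ 2 :=
            Nat.mul_le_mul_right _ (Nat.mul_le_mul_left _ h1)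
        _ = 1024 * (PV * PW * qq) ^ 2 := by ring
    calc 8 * (2 * n * m * qq ^ 2 * M ^ 2) = (1024 * (PV * PW) * qq ^ 2) * L ^ 17 := by
          rw [hn, hm, hM]; ring
      _ ≤ L * L ^ 17 := Nat.mul_le_mul_right _ hle
      _ = Q ^ 2 := by rw [hQ]; ring
  · rw [hcardU, Fintype.card_fin, hcardΛ]
    have h1 := num3 L (PV * PW * qq) (L ^ 3) m M (by omega) (Nat.mul_pos hPP hq1) hqL rfl hm hM
      (hL0 L (by omega))
    have h2 : 2 * n * m * qq = 2 * L ^ 3 * m * (PV * PW * qq) := by rw [hn]; ring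
    rw [h2]
    exact h1
  · intro x
    exact (hI _).1 (host_no ((0, 0), ⟨0, by omega⟩) c0 hφ ε K hKlt hs1 hs2 hs3 x)
  · intro S hS0
    exact (hI _).2 (host_yes ((0, 0), ⟨0, by omega⟩) hφ S hS0)

/-- the choice of `L` -/
theorem choose_L (L1 P : ℕ) (hP : 1 ≤ P) : ∃ N0 : ℕ, ∀ N : ℕ, N0 ≤ N →
    ∃ L, L1 ≤ L ∧ 64 * P * L ^ 13 + 1 ≤ N ∧ (N : ℝ) ^ (1 / 14 : ℝ) ≤ L := by
  set L' := max L1 (2 ^ 20 * P) with hL'
  refine ⟨64 * P * L' ^ 13 + 1, fun N hN => ?_⟩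
  have hL1 : 1 ≤ L' := le_trans (by omega) (le_max_right L1 (2 ^ 20 * P))
  have hself : ∀ L : ℕ, L ≤ 64 * P * L ^ 13 + 1 := by
    intro L
    have h1 : L ≤ L ^ 13 := Nat.le_self_pow (by norm_num) L
    have h2 : L ^ 13 ≤ 64 * P * L ^ 13 := Nat.le_mul_of_pos_left _ (by omega)
    omega
  set L := Nat.findGreatest (fun L => 64 * P * L ^ 13 + 1 ≤ N) N with hLdef
  have hle : L' ≤ L := Nat.le_findGreatest ((hself L').trans hN) hN
  have hPL : 64 * P * L ^ 13 + 1 ≤ N :=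
    Nat.findGreatest_spec (P := fun L => 64 * P * L ^ 13 + 1 ≤ N) (m := L')
      ((hself L').trans hN) hN
  have hnot : N < 64 * P * (L + 1) ^ 13 + 1 := by
    by_contra h
    have h1 : 64 * P * (L + 1) ^ 13 + 1 ≤ N := not_lt.1 h
    have h2 : L + 1 ≤ L := by
      rw [hLdef]
      exact Nat.le_findGreatest ((hself _).trans h1) h1
    omega
  have hL20 : 2 ^ 20 * P ≤ L := (le_max_right L1 (2 ^ 20 * P)).trans hle
  refine ⟨L, (le_max_left _ _).trans hle, hPL, ?_⟩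
  have hN14 : N ≤ L ^ 14 := by
    have h1 : (L + 1) ^ 13 ≤ (2 * L) ^ 13 := Nat.pow_le_pow_left (by omega) 13
    have h2 : (2 * L) ^ 13 = 8192 * L ^ 13 := by rw [mul_pow]; norm_num
    have h3 : L ^ 14 = L * L ^ 13 := by ring
    have h4 : 2 ^ 20 * P * L ^ 13 ≤ L * L ^ 13 := Nat.mul_le_mul_right _ hL20
    have h5 : 64 * P * (L + 1) ^ 13 ≤ 64 * P * (8192 * L ^ 13) := by
      rw [← h2]
      exact Nat.mul_le_mul_left _ h1
    have h6 : 64 * P * (8192 * L ^ 13) = 524288 * (P * L ^ 13) := by ring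
    have h7 : 2 ^ 20 * P * L ^ 13 = 1048576 * (P * L ^ 13) := by ring
    have hLpos : 0 < L := by omega
    have h8 : 1 ≤ P * L ^ 13 := Nat.mul_pos hP (Nat.pow_pos hLpos)
    omega
  have h1 : (N : ℝ) ≤ (L : ℝ) ^ 14 := by exact_mod_cast hN14
  have h2 : (N : ℝ) ^ (1 / 14 : ℝ) ≤ ((L : ℝ) ^ 14) ^ (1 / 14 : ℝ) :=
    Real.rpow_le_rpow (Nat.cast_nonneg _) h1 (by norm_num)
  have h3 : ((L : ℝ) ^ 14) ^ (1 / 14 : ℝ) = L := by
    rw [← Real.rpow_natCast, ← Real.rpow_mul (Nat.cast_nonneg _)]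
    norm_num
  exact h2.trans h3.le

/-- d-to-1 games with perfect completeness are hard for randomised circuits of monotone real
gates with access to SDA, to BLP+AIP and to local consistency -/
theorem dto1_blind (d : ℕ) (hd : 2 ≤ d) (ε : ℝ) (hε : 0 < ε) :
    ∃ R : ℕ, 1 ≤ R ∧ ∃ N0 : ℕ, ∀ N k : ℕ, N0 ≤ N → (k : ℝ) ≤ (N : ℝ) ^ (1 / 14 : ℝ) →
      ∀ (Ω : Type) [Fintype Ω] [Nonempty Ω] (l : Ω → List (DGame (Fin N) (Fin N) d R → ℝ)),
      (∀ ω, Prog (dInputs (Fin N) (Fin N) d R ∪ BlindS (Fin N) (Fin N) d R k) (l ω)) →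
      DDecides ε l → ∃ ω, (2 : ℝ) ^ ((N : ℝ) ^ (1 / 14 : ℝ)) ≤ (l ω).length := by
  obtain ⟨R, L1, P, hR, hP, h⟩ := main_L d hd ε hε
  obtain ⟨N0, hN0⟩ := choose_L L1 P hP
  refine ⟨R, hR, N0, fun N k hN hk Ω _ _ l hl hdec => ?_⟩
  obtain ⟨L, hL1, hLN, hL⟩ := hN0 N hN
  have hkL : k ≤ L := by exact_mod_cast hk.trans hL
  obtain ⟨ω, hω⟩ := h L hL1 N hLN k hkL Ω l hl hdec
  refine ⟨ω, ?_⟩
  calc (2 : ℝ) ^ ((N : ℝ) ^ (1 / 14 : ℝ)) ≤ (2 : ℝ) ^ (L : ℝ) :=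
        Real.rpow_le_rpow_of_exponent_le (by norm_num) hL
    _ = 2 ^ L := Real.rpow_natCast 2 L
    _ ≤ (l ω).length := by exact_mod_cast hω

end Pool.Agent.NH48.SD
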