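import Pool.Agent.NH48.SC.Value

/-! # The dihedral game: vectors -/

set_option autoImplicit false

open scoped Classical
open Finset

namespace Pool.Agent.NH48.SD

open Pool.Agent.NH48.SC

section

variable {q k : ℕ} [Fact q.Prime]

/-- hyperplanes have the right number of points -/
theorem card_hyper (g : XX q k) (hg : g ≠ 0) (j : ZMod q) :
    (q : ℝ) * (univ.filter fun a : XX q k => a ⬝ᵥ g = j).card = Fintype.card (XX q k) := by
  obtain ⟨i, hi⟩ : ∃ i, g i ≠ 0 := by
    by_contra h
    push Not at h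
    exact hg (funext h)
  have h1 : ∀ j' : ZMod q, (univ.filter fun a : XX q k => a ⬝ᵥ g = j').card =
      (univ.filter fun a : XX q k => a ⬝ᵥ g = 0).card := by
    intro j'
    have hs : (Pi.single i (j' / g i) : XX q k) ⬝ᵥ g = j' := by
      rw [single_dotProduct, div_mul_cancel₀ _ hi]
    apply Finset.card_bij (fun a _ => a - Pi.single i (j' / g i))
    · intro a ha
      rw [mem_filter] at ha ⊢
      refine ⟨mem_univ _, ?_⟩
      rw [sub_dotProduct, ha.2, hs, sub_self]
    · intro a _ a' _ h
      exact sub_left_injective h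
    · intro a ha
      rw [mem_filter] at ha
      refine ⟨a + Pi.single i (j' / g i), ?_, ?_⟩
      · rw [mem_filter]
        refine ⟨mem_univ _, ?_⟩
        rw [add_dotProduct, ha.2, hs, zero_add]
      · rw [add_sub_cancel_right]
  have h2 : ∑ j' : ZMod q, (univ.filter fun a : XX q k => a ⬝ᵥ g = j').card =
      Fintype.card (XX q k) := by
    rw [← card_univ, card_eq_sum_card_fiberwise (f := fun a : XX q k => a ⬝ᵥ g) (t := univ)]
    intro a _
    exact mem_coe.2 (mem_univ _)
  rw [sum_congr rfl fun j' _ => h1 j', sum_const, card_univ, ZMod.card, smul_eq_mul] at h2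
  rw [h1 j]
  exact_mod_cast h2

/-- the normalising factor -/
noncomputable def kap (q : ℕ) : ℝ := Real.sqrt ((q : ℝ) / (q - 1))

theorem kap_sq : kap q * kap q * (1 - 1 / (q : ℝ)) = 1 := by
  have hq : (1 : ℝ) < q := by exact_mod_cast Nat.Prime.one_lt (Fact.out : q.Prime)
  unfold kap
  rw [Real.mul_self_sqrt (div_nonneg (by linarith) (by linarith))]
  have h1 : (q : ℝ) - 1 ≠ 0 := by linarith
  have h2 : (q : ℝ) ≠ 0 := by linarith
  field_simp

/-- the vector of a function -/
noncomputable def xv (u : TT q k) : XX q k × ZMod q → ℝ := fun c =>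
  1 / (Fintype.card (XX q k) : ℝ) * (if c.1 = 0 then (if c.2 = 0 then 1 else 0) else
    kap q * ((if u c.1 = c.2 then 1 else 0) - 1 / (q : ℝ)))

/-- the common sum -/
noncomputable def zv (q k : ℕ) : XX q k × ZMod q → ℝ := fun c => if c.1 = 0 ∧ c.2 = 0 then 1 else 0

omit [Fact q.Prime] in
theorem zv_unit [NeZero q] : zv q k ⬝ᵥ zv q k = 1 := by
  unfold zv dotProduct
  rw [Finset.sum_eq_single (0, 0)]
  · simp
  · rintro ⟨g, j⟩ _ h
    have : ¬ (g = 0 ∧ j = 0) := fun h' => h (Prod.ext h'.1 h'.2)
    simp [this]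
  · intro h
    exact absurd (mem_univ _) h

theorem cardX_pos : (0 : ℝ) < Fintype.card (XX q k) := by
  have : 0 < Fintype.card (XX q k) := Fintype.card_pos
  exact_mod_cast this

theorem q_pos : (0 : ℝ) < q := by exact_mod_cast (Fact.out : q.Prime).pos

theorem xv_sum (t : TT q k) (s : SS q k) : ∑ a : XX q k, xv (t + tw s a) = zv q k := by
  have hN := cardX_pos (q := q) (k := k)
  have hq := q_pos (q := q)
  funext c
  obtain ⟨g, j⟩ := c
  rw [Finset.sum_apply]
  unfold xv zv
  simp only
  rw [← Finset.mul_sum]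
  by_cases hg : g = 0
  · simp only [hg, if_true, true_and, sum_const, card_univ, nsmul_eq_mul]
    split_ifs
    · field_simp
    · simp
  · have h1 : ¬ (g = 0 ∧ j = 0) := fun h => hg h.1
    simp only [hg, if_false, false_and]
    rw [← Finset.mul_sum, sum_sub_distrib, sum_const, card_univ, nsmul_eq_mul]
    have h2 : ∑ a : XX q k, (if (t + tw s a) g = j then (1 : ℝ) else 0) =
        (univ.filter fun a : XX q k => a ⬝ᵥ g = sg (s g) * (j - t g)).card := by
      rw [card_filter]
      push_cast
      refine sum_congr rfl fun a _ => ?_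
      congr 1
      simp only [tw, Pi.add_apply, eq_iff_iff]
      constructor
      · intro h
        rw [← h, add_sub_cancel_left, ← mul_assoc, sg_mul_sg, one_mul]
      · intro h
        rw [h, ← mul_assoc, sg_mul_sg, one_mul]
        ring
    have h3 := card_hyper g hg (sg (s g) * (j - t g))
    rw [h2]
    have h4 : ((univ.filter fun a : XX q k => a ⬝ᵥ g = sg (s g) * (j - t g)).card : ℝ) =
        Fintype.card (XX q k) * (1 / q) := by
      rw [← h3]
      field_simp
    rw [h4]
    ring

/-- inner products -/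
theorem xv_dot (u u' : TT q k) : xv u ⬝ᵥ xv u' = 1 / (Fintype.card (XX q k) : ℝ) ^ 2 *
    (1 + kap q * kap q * ∑ g ∈ univ.erase (0 : XX q k),
      ((if u g = u' g then 1 else 0) - 1 / (q : ℝ))) := by
  have hq := q_pos (q := q)
  unfold dotProduct
  rw [Fintype.sum_prod_type, ← Finset.add_sum_erase univ _ (mem_univ (0 : XX q k))]
  have h0 : ∑ y : ZMod q, xv u ((0 : XX q k), y) * xv u' (0, y) =
      1 / (Fintype.card (XX q k) : ℝ) ^ 2 := by
    rw [Finset.sum_eq_single (0 : ZMod q)]
    · simp only [xv, if_true]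
      ring
    · intro y _ hy
      simp [xv, hy]
    · intro h
      exact absurd (mem_univ _) h
  have h1 : ∀ g ∈ univ.erase (0 : XX q k), ∑ y : ZMod q, xv u (g, y) * xv u' (g, y) =
      1 / (Fintype.card (XX q k) : ℝ) ^ 2 * (kap q * kap q *
        ((if u g = u' g then 1 else 0) - 1 / (q : ℝ))) := by
    intro g hg
    have hg0 : g ≠ 0 := (mem_erase.1 hg).1
    simp only [xv, hg0, if_false]
    have h2 : ∀ y : ZMod q, 1 / (Fintype.card (XX q k) : ℝ) *
        (kap q * ((if u g = y then 1 else 0) - 1 / (q : ℝ))) *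
        (1 / (Fintype.card (XX q k) : ℝ) * (kap q * ((if u' g = y then 1 else 0) - 1 / (q : ℝ)))) =
        1 / (Fintype.card (XX q k) : ℝ) ^ 2 * (kap q * kap q *
        ((if u g = y then (if u' g = y then 1 else 0) else 0) -
          1 / (q : ℝ) * (if u g = y then 1 else 0) - 1 / (q : ℝ) * (if u' g = y then 1 else 0) +
          1 / (q : ℝ) * (1 / (q : ℝ)))) := by
      intro y
      split_ifs <;> ring
    rw [sum_congr rfl fun y _ => h2 y, ← Finset.mul_sum, ← Finset.mul_sum]
    congr 2
    rw [sum_add_distrib, sum_sub_distrib, sum_sub_distrib, ← Finset.mul_sum, ← Finset.mul_sum,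
      Finset.sum_ite_eq, Finset.sum_ite_eq, Finset.sum_ite_eq, sum_const, card_univ, ZMod.card,
      nsmul_eq_mul]
    simp only [mem_univ, if_true]
    have h3 : (q : ℝ) * (1 / (q : ℝ) * (1 / (q : ℝ))) = 1 / (q : ℝ) := by field_simp
    rw [h3]
    have h4 : (if u' g = u g then (1 : ℝ) else 0) = if u g = u' g then 1 else 0 := by
      by_cases h : u g = u' g
      · rw [if_pos h, if_pos h.symm]
      · rw [if_neg h, if_neg (Ne.symm h)]
    rw [h4]
    ring
  rw [sum_congr rfl h1, h0, ← Finset.mul_sum, ← Finset.mul_sum]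
  ring

theorem xv_orth (t : TT q k) (s : SS q k) (a a' : XX q k) (h : a ≠ a') :
    xv (t + tw s a) ⬝ᵥ xv (t + tw s a') = 0 := by
  have hN := cardX_pos (q := q) (k := k)
  have hq := q_pos (q := q)
  rw [xv_dot]
  have h0 : a - a' ≠ 0 := sub_ne_zero.2 h
  have h1 : ∀ g : XX q k, ((t + tw s a) g = (t + tw s a') g) ↔ g ⬝ᵥ (a - a') = 0 := by
    intro g
    simp only [tw, Pi.add_apply, add_right_inj]
    rw [dotProduct_sub, sub_eq_zero, dotProduct_comm g a, dotProduct_comm g a']
    constructor
    · intro h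
      have h2 : sg (s g) * (sg (s g) * (a ⬝ᵥ g)) = sg (s g) * (sg (s g) * (a' ⬝ᵥ g)) := by rw [h]
      rw [← mul_assoc, ← mul_assoc, sg_mul_sg, one_mul, one_mul] at h2
      exact h2
    · intro h
      rw [h]
  have h2 : ∑ g ∈ univ.erase (0 : XX q k),
      ((if (t + tw s a) g = (t + tw s a') g then 1 else 0) - 1 / (q : ℝ)) =
      -(1 - 1 / (q : ℝ)) := by
    have h3 : ∑ g : XX q k,
      ((if (t + tw s a) g = (t + tw s a') g then 1 else 0) - 1 / (q : ℝ)) = 0 := by
      rw [sum_sub_distrib, sum_const, card_univ, nsmul_eq_mul]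
      have h4 : ∑ g : XX q k, (if (t + tw s a) g = (t + tw s a') g then (1 : ℝ) else 0) =
          (univ.filter fun g : XX q k => g ⬝ᵥ (a - a') = 0).card := by
        rw [card_filter]
        push_cast
        refine sum_congr rfl fun g _ => ?_
        congr 1
        exact propext (h1 g)
      rw [h4]
      have h5 := card_hyper (a - a') h0 0
      rw [← h5]
      field_simp
      ring
    rw [← Finset.add_sum_erase univ _ (mem_univ (0 : XX q k))] at h3
    have h6 : (t + tw s a) 0 = (t + tw s a') 0 := by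
      rw [h1]
      exact zero_dotProduct _
    rw [if_pos h6] at h3
    linarith
  rw [h2]
  have h7 := kap_sq (q := q)
  have h8 : kap q * kap q * -(1 - 1 / (q : ℝ)) = -1 := by
    linarith
  rw [h8]
  simp

/-- the value at the origin -/
theorem xv_zero (u : TT q k) : xv u (0, 0) = 1 / (Fintype.card (XX q k) : ℝ) := by
  simp [xv]

/-- the vectors of the left labels -/
noncomputable def yv (t : TT q k) (l : LB q k) : XX q k × ZMod q → ℝ :=
  ∑ c with nrm c = l, xv (t + tw (fun _ => false) c)

theorem nrm_neg (c : XX q k) : nrm (-c) = nrm c := nrm_eq.2 (Or.inr rfl)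

/-- the sums over the fibres do not depend on the signs -/
theorem sum_fib (t : TT q k) (s : SS q k) (l : LB q k) :
    ∑ c with nrm c = l, xv (t + tw s c) = yv t l := by
  unfold yv
  funext x
  obtain ⟨g, j⟩ := x
  rw [Finset.sum_apply, Finset.sum_apply]
  cases hs : s g
  · refine sum_congr rfl fun c _ => ?_
    unfold xv
    have : (t + tw s c) g = (t + tw (fun _ => false) c) g := by
      simp only [tw, Pi.add_apply, hs]
    simp only [this]
  · apply Finset.sum_equiv (Equiv.neg (XX q k))
    · intro c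
      rw [mem_filter, mem_filter]
      simp only [mem_univ, true_and]
      rw [Equiv.neg_apply, nrm_neg]
    · intro c _
      unfold xv
      have : (t + tw s c) g = (t + tw (fun _ => false) (Equiv.neg (XX q k) c)) g := by
        simp only [tw, Pi.add_apply, hs, Equiv.neg_apply, neg_dotProduct, sg, if_true,
          Bool.false_eq_true, if_false]
        ring
      simp only [this]

/-- the sums over the fibres of the constraint maps -/
theorem sum_fib' (t : TT q k) (s : SS q k) (b : XX q k) (l : LB q k) :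
    ∑ a with nrm (a - b) = l, xv (t + tw s a) = yv (t + tw s b) l := by
  rw [← sum_fib (t + tw s b) s l]
  apply Finset.sum_equiv (Equiv.subRight b)
  · intro a
    rw [mem_filter, mem_filter]
    simp
  · intro a _
    rw [Equiv.subRight_apply, add_assoc, ← tw_add, add_sub_cancel]

theorem yv_sum (t : TT q k) : ∑ l, yv t l = zv q k := by
  unfold yv
  rw [Finset.sum_fiberwise univ (fun c : XX q k => nrm c)
    (fun c => xv (t + tw (fun _ => false) c))]
  exact xv_sum t _

theorem yv_orth (t : TT q k) (l l' : LB q k) (h : l ≠ l') : yv t l ⬝ᵥ yv t l' = 0 := by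
  unfold yv
  rw [sum_dotProduct]
  refine sum_eq_zero fun c hc => ?_
  rw [dotProduct_sum]
  refine sum_eq_zero fun c' hc' => ?_
  apply xv_orth
  rintro rfl
  rw [mem_filter] at hc hc'
  exact h (hc.2.symm.trans hc'.2)

theorem yv_ne (t : TT q k) (l : LB q k) : yv t l ≠ 0 := by
  have hN := cardX_pos (q := q) (k := k)
  obtain ⟨c, rfl⟩ := Quotient.mk_surjective l
  intro h
  have h1 := congrFun h (0, 0)
  unfold yv at h1
  rw [Finset.sum_apply] at h1
  simp only [xv_zero, sum_const, nsmul_eq_mul, Pi.zero_apply] at h1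
  have h2 : 0 < (univ.filter fun c' : XX q k => nrm c' = nrm c).card :=
    card_pos.2 ⟨c, mem_filter.2 ⟨mem_univ _, rfl⟩⟩
  have h3 : (0 : ℝ) < (univ.filter fun c' : XX q k => nrm c' = nrm c).card := by exact_mod_cast h2
  have h4 : (0 : ℝ) < (univ.filter fun c' : XX q k => nrm c' = nrm c).card *
      (1 / (Fintype.card (XX q k) : ℝ)) := by positivity
  exact h4.ne' h1

theorem xv_ne (u : TT q k) : xv u ≠ 0 := by
  have hN := cardX_pos (q := q) (k := k)
  intro h
  have h1 := congrFun h (0, 0)
  rw [xv_zero] at h1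
  simp only [Pi.zero_apply] at h1
  have : (0 : ℝ) < 1 / (Fintype.card (XX q k) : ℝ) := by positivity
  exact this.ne' h1

/-- canonical right vertices -/
abbrev WQ (q k : ℕ) [Fact q.Prime] : Type := {w : EE q k // rep w = w}

noncomputable instance : Fintype (WQ q k) :=
  Fintype.ofInjective (fun w : WQ q k => w.1) Subtype.val_injective

theorem rep_rep (e : EE q k) : rep (rep e) = rep e := by
  have h := rep_add (rep e).1 (rep e).2 (idx e)
  have h2 := rep_idx e
  rw [← h2] at h
  exact h.symm

theorem idx_of_rep {w : EE q k} (h : rep w = w) : idx w = 0 := by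
  have h1 : (rep w).1 = w.1 := by rw [h]
  have h2 : tw w.2 (idx w) = 0 := by
    unfold rep at h1
    simp only at h1
    have := sub_eq_self.1 h1
    exact this
  funext i
  have h3 := congrFun h2 (Pi.single i 1)
  simp only [tw, dotProduct_single, mul_one, Pi.zero_apply] at h3
  have h4 : sg (w.2 (Pi.single i 1)) * (sg (w.2 (Pi.single i 1)) * idx w i) = 0 := by
    rw [h3, mul_zero]
  rw [← mul_assoc, sg_mul_sg, one_mul] at h4
  exact h4

/-- edges -/
noncomputable def eWQ (q k : ℕ) [Fact q.Prime] : EE q k ≃ WQ q k × XX q k where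
  toFun e := (⟨rep e, rep_rep e⟩, idx e)
  invFun x := (x.1.1.1 + tw x.1.1.2 x.2, x.1.1.2)
  left_inv e := (rep_idx e).symm
  right_inv x := by
    obtain ⟨⟨⟨t, s⟩, hw⟩, b⟩ := x
    simp only [Prod.mk.injEq, Subtype.mk.injEq]
    rw [rep_add, idx_add, idx_of_rep hw, zero_add]
    exact ⟨hw, rfl⟩

/-- the value of the dihedral game -/
theorem valueQ (hq : q ≠ 2) (δ : ℝ) (hδ : 0 < δ) :
    ∃ k : ℕ, ∀ (A : WQ q k → XX q k) (L : TT q k → LB q k),
      ((univ.filter fun x : WQ q k × XX q k =>
        nrm (A x.1 - x.2) = L (x.1.1.1 + tw x.1.1.2 x.2)).card : ℝ) ≤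
        δ * Fintype.card (WQ q k × XX q k) := by
  obtain ⟨k, hk⟩ := value q hq δ hδ
  refine ⟨k, fun A L => ?_⟩
  have h := hk (fun e => A ⟨rep e, rep_rep e⟩) L
  have hc : Fintype.card (WQ q k × XX q k) = Fintype.card (EE q k) :=
    (Fintype.card_congr (eWQ q k)).symm
  rw [hc]
  refine le_trans (le_of_eq ?_) h
  congr 1
  symm
  apply Finset.card_bij (fun e _ => eWQ q k e)
  · intro e he
    rw [mem_filter] at he ⊢
    refine ⟨mem_univ _, ?_⟩
    have h1 : (rep e).1 + tw (rep e).2 (idx e) = e.1 := by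
      have := rep_idx e
      exact (congrArg Prod.fst this).symm
    show nrm (A ⟨rep e, rep_rep e⟩ - idx e) = L ((rep e).1 + tw (rep e).2 (idx e))
    rw [h1]
    have h2 := he.2
    simp only [rep_rep] at h2
    exact h2
  · intro e _ e' _ h
    exact (eWQ q k).injective h
  · intro x hx
    refine ⟨(eWQ q k).symm x, ?_, (eWQ q k).apply_symm_apply x⟩
    rw [mem_filter] at hx ⊢
    refine ⟨mem_univ _, ?_⟩
    have h1 := (eWQ q k).apply_symm_apply x
    obtain ⟨e, he⟩ : ∃ e, e = (eWQ q k).symm x := ⟨_, rfl⟩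
    rw [← he] at h1 ⊢
    have h3 : (⟨rep e, rep_rep e⟩ : WQ q k) = x.1 := congrArg Prod.fst h1
    have h4 : idx e = x.2 := congrArg Prod.snd h1
    have h5 : (⟨rep (rep e), rep_rep (rep e)⟩ : WQ q k) = x.1 := by
      rw [← h3]
      exact Subtype.ext (rep_rep e)
    rw [h5, h4, hx.2]
    congr 1
    rw [he]
    rfl

theorem cardX_pow : Fintype.card (XX q k) = q ^ k := by
  rw [Fintype.card_fun, Fintype.card_fin, ZMod.card]

end

end Pool.Agent.NH48.SD
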