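import Pool.Agent.NH48.SD.Base
import Pool.Agent.NH48.SD.EX

/-! # Random blow-ups of base games have small value -/

set_option autoImplicit false

open scoped Classical
open Finset

namespace Pool.Agent.NH48.SD

section

variable {n n' D : ℕ}

theorem mgf (f : Fin n → Fin D → Fin n' → Prop) (M : ℝ) (hM : 1 ≤ M) (hn : 1 ≤ n') (μ : ℝ)
    (hμ : ∑ w, ∑ i, ((univ.filter fun j => f w i j).card : ℝ) ≤ μ * n') (K : ℕ) :
    ((univ.filter fun ψ : Fin n → Fin D → Fin n' =>
      K ≤ (univ.filter fun e : Fin n × Fin D => f e.1 e.2 (ψ e.1 e.2)).card).card : ℝ) * M ^ K ≤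
      (((n' : ℝ) ^ D) ^ n) * Real.exp (M * μ) := by
  have hn0 : (0 : ℝ) < n' := by exact_mod_cast hn
  have h1 : ∀ ψ : Fin n → Fin D → Fin n',
      M ^ (univ.filter fun e : Fin n × Fin D => f e.1 e.2 (ψ e.1 e.2)).card =
      ∏ w, ∏ i, (if f w i (ψ w i) then M else 1) := by
    intro ψ
    rw [← Fintype.prod_prod_type' (f := fun w i => if f w i (ψ w i) then M else 1),
      Finset.prod_ite, Finset.prod_const, Finset.prod_const_one, mul_one]
  have h2 : ∑ ψ : Fin n → Fin D → Fin n', ∏ w, ∏ i, (if f w i (ψ w i) then M else 1) =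
      ∏ w, ∏ i, ∑ j : Fin n', (if f w i j then M else 1) := by
    have e1 : ∀ w, ∏ i, ∑ j : Fin n', (if f w i j then M else 1) =
        ∑ χ : Fin D → Fin n', ∏ i, (if f w i (χ i) then M else 1) := by
      intro w
      rw [Finset.prod_univ_sum, Fintype.piFinset_univ]
    rw [Finset.prod_congr rfl fun w _ => e1 w, Finset.prod_univ_sum, Fintype.piFinset_univ]
  have h3 : ∀ w i, ∑ j : Fin n', (if f w i j then M else 1) ≤
      n' * Real.exp (M * ((univ.filter fun j => f w i j).card : ℝ) / n') := by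
    intro w i
    have e1 : ∑ j : Fin n', (if f w i j then M else 1) =
        (univ.filter fun j => f w i j).card * (M - 1) + n' := by
      have e2 : ∀ j : Fin n', (if f w i j then M else 1) = (if f w i j then M - 1 else 0) + 1 := by
        intro j
        split_ifs <;> ring
      rw [sum_congr rfl fun j _ => e2 j, sum_add_distrib, ← sum_filter, sum_const, sum_const,
        card_univ, Fintype.card_fin, nsmul_eq_mul, nsmul_eq_mul, mul_one]
    rw [e1]
    have e3 := Real.add_one_le_exp (M * ((univ.filter fun j => f w i j).card : ℝ) / n')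
    have e4 : (n' : ℝ) * (M * ((univ.filter fun j => f w i j).card : ℝ) / n' + 1) ≤
        n' * Real.exp (M * ((univ.filter fun j => f w i j).card : ℝ) / n') :=
      mul_le_mul_of_nonneg_left e3 hn0.le
    refine le_trans ?_ e4
    have e5 : (n' : ℝ) * (M * ((univ.filter fun j => f w i j).card : ℝ) / n' + 1) =
        M * ((univ.filter fun j => f w i j).card : ℝ) + n' := by
      field_simp
    rw [e5]
    have e6 : (0 : ℝ) ≤ (univ.filter fun j => f w i j).card := Nat.cast_nonneg _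
    nlinarith
  have h4 : ∏ w, ∏ i, ∑ j : Fin n', (if f w i j then M else 1) ≤
      (((n' : ℝ) ^ D) ^ n) * Real.exp (M * μ) := by
    calc ∏ w, ∏ i, ∑ j : Fin n', (if f w i j then M else 1)
        ≤ ∏ w : Fin n, ∏ i : Fin D,
          ((n' : ℝ) * Real.exp (M * ((univ.filter fun j => f w i j).card : ℝ) / n')) := by
          refine prod_le_prod (fun w _ => prod_nonneg fun i _ => sum_nonneg fun j _ => ?_)
            fun w _ => prod_le_prod (fun i _ => sum_nonneg fun j _ => ?_) fun i _ => h3 w i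
          · split_ifs <;> linarith
          · split_ifs <;> linarith
      _ = (((n' : ℝ) ^ D) ^ n) *
          Real.exp (∑ w, ∑ i, M * ((univ.filter fun j => f w i j).card : ℝ) / n') := by
          simp only [Finset.prod_mul_distrib, Finset.prod_const, card_univ, Fintype.card_fin]
          rw [Real.exp_sum]
          congr 1
          refine prod_congr rfl fun w _ => ?_
          rw [Real.exp_sum]
      _ ≤ (((n' : ℝ) ^ D) ^ n) * Real.exp (M * μ) := by
          apply mul_le_mul_of_nonneg_left _ (by positivity)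
          apply Real.exp_le_exp.2
          have e7 : ∑ w, ∑ i, M * ((univ.filter fun j => f w i j).card : ℝ) / n' =
              M * (∑ w, ∑ i, ((univ.filter fun j => f w i j).card : ℝ)) / n' := by
            rw [Finset.mul_sum, Finset.sum_div]
            refine sum_congr rfl fun w _ => ?_
            rw [Finset.mul_sum, Finset.sum_div]
          rw [e7, div_le_iff₀ hn0, mul_assoc]
          exact mul_le_mul_of_nonneg_left hμ (by linarith)
  calc ((univ.filter fun ψ : Fin n → Fin D → Fin n' =>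
      K ≤ (univ.filter fun e : Fin n × Fin D => f e.1 e.2 (ψ e.1 e.2)).card).card : ℝ) * M ^ K
      = ∑ ψ ∈ univ.filter fun ψ : Fin n → Fin D → Fin n' =>
        K ≤ (univ.filter fun e : Fin n × Fin D => f e.1 e.2 (ψ e.1 e.2)).card, M ^ K := by
        rw [sum_const, nsmul_eq_mul]
    _ ≤ ∑ ψ ∈ univ.filter fun ψ : Fin n → Fin D → Fin n' =>
        K ≤ (univ.filter fun e : Fin n × Fin D => f e.1 e.2 (ψ e.1 e.2)).card,
          M ^ (univ.filter fun e : Fin n × Fin D => f e.1 e.2 (ψ e.1 e.2)).card := by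
        refine sum_le_sum fun ψ hψ => ?_
        exact pow_le_pow_right₀ hM (mem_filter.1 hψ).2
    _ ≤ ∑ ψ : Fin n → Fin D → Fin n',
          M ^ (univ.filter fun e : Fin n × Fin D => f e.1 e.2 (ψ e.1 e.2)).card := by
        refine sum_le_sum_of_subset_of_nonneg (subset_univ _) fun ψ _ _ => ?_
        positivity
    _ = ∏ w, ∏ i, ∑ j : Fin n', (if f w i j then M else 1) := by
        rw [← h2]
        exact sum_congr rfl fun ψ _ => h1 ψ
    _ ≤ _ := h4

end

section

variable {d : ℕ} (G : Base d) {n n1 n2 D D0 : ℕ} (eV : G.VB × Fin n1 ≃ Fin n)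
  (eW : G.WB × Fin n2 ≃ Fin n) (eD : G.IB × Fin D0 ≃ Fin D)

/-- the class of a right vertex -/
def cW (w : Fin n) : G.WB := (eW.symm w).1

/-- the class of a left vertex -/
def cV (v : Fin n) : G.VB := (eV.symm v).1

/-- the index of a base edge -/
def cI (i : Fin D) : G.IB := (eD.symm i).1

/-- the possible neighbours -/
def FF (w : Fin n) (i : Fin D) (j : Fin n1) : Fin n :=
  eV (G.nb (cW G eW w) (cI G eD i), j)

theorem FF_inj (w : Fin n) (i : Fin D) : Function.Injective (FF G eV eW eD w i) := by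
  intro j j' h
  have h1 := eV.injective h
  exact (Prod.mk.inj h1).2

theorem cV_phi (ψ : Fin n → Fin D → Fin n1) (w : Fin n) (i : Fin D) :
    cV G eV (phi (FF G eV eW eD) ψ w i) = G.nb (cW G eW w) (cI G eD i) := by
  unfold cV phi FF
  rw [Equiv.symm_apply_apply]

/-- the label `l` of the neighbour satisfies the edge `(w, i)` -/
def okB (cw : Fin n → G.WB) (ci : Fin D → G.IB) (x : Fin n → G.RC) (w : Fin n) (i : Fin D)
    (l : G.LC) : Prop :=
  ¬ G.dum (x w) ∧ G.π (cw w) (ci i) (x w) = l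

/-- the edges satisfied in the base part -/
noncomputable def satB (cw : Fin n → G.WB) (ci : Fin D → G.IB) (φ : Fin n → Fin D → Fin n)
    (x : Fin n → G.RC) (y : Fin n → G.LC) : Finset (Fin n × Fin D) :=
  univ.filter fun e => okB G cw ci x e.1 e.2 (y (φ e.1 e.2))

theorem mean (δ : ℝ) (hδ : G.Val δ) (x : Fin n → G.RC) (y : Fin n → G.LC) :
    ∑ w : Fin n, ∑ i : Fin D, ((univ.filter fun j : Fin n1 =>
      okB G (cW G eW) (cI G eD) x w i (y (FF G eV eW eD w i j))).card : ℝ) ≤
      (δ * (n * D : ℕ)) * n1 := by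
  have hn : (n : ℝ) = Fintype.card G.WB * n2 := by
    have := Fintype.card_congr eW
    rw [Fintype.card_prod, Fintype.card_fin, Fintype.card_fin] at this
    rw [← this]
    push_cast
    ring
  have hD : (D : ℝ) = Fintype.card G.IB * D0 := by
    have := Fintype.card_congr eD
    rw [Fintype.card_prod, Fintype.card_fin, Fintype.card_fin] at this
    rw [← this]
    push_cast
    ring
  have h1 : ∑ w : Fin n, ∑ i : Fin D, ((univ.filter fun j : Fin n1 =>
      okB G (cW G eW) (cI G eD) x w i (y (FF G eV eW eD w i j))).card : ℝ) =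
      ∑ a : Fin n2, ∑ j : Fin n1, ∑ _u : Fin D0, ∑ z : G.WB × G.IB,
        (if ¬ G.dum (x (eW (z.1, a))) ∧ G.π z.1 z.2 (x (eW (z.1, a))) = y (eV (G.nb z.1 z.2, j))
          then (1 : ℝ) else 0) := by
    have e1 : ∀ w : Fin n, ∀ i : Fin D, ((univ.filter fun j : Fin n1 =>
        okB G (cW G eW) (cI G eD) x w i (y (FF G eV eW eD w i j))).card : ℝ) =
        ∑ j : Fin n1, (if ¬ G.dum (x w) ∧
        G.π (cW G eW w) (cI G eD i) (x w) = y (FF G eV eW eD w i j) then (1 : ℝ) else 0) := by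
      intro w i
      rw [card_filter]
      push_cast
      refine sum_congr rfl fun j _ => ?_
      by_cases h : okB G (cW G eW) (cI G eD) x w i (y (FF G eV eW eD w i j))
      · exact (if_pos h).trans (if_pos h).symm
      · exact (if_neg h).trans (if_neg h).symm
    rw [sum_congr rfl fun w _ => sum_congr rfl fun i _ => e1 w i]
    rw [← Equiv.sum_comp eW]
    rw [sum_congr rfl fun w _ => (Equiv.sum_comp eD _).symm]
    simp only [Fintype.sum_prod_type]
    have e2 : ∀ (wb : G.WB) (a : Fin n2) (b : G.IB) (u : Fin D0) (j : Fin n1),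
        (if ¬ G.dum (x (eW (wb, a))) ∧ G.π (cW G eW (eW (wb, a))) (cI G eD (eD (b, u)))
          (x (eW (wb, a))) = y (FF G eV eW eD (eW (wb, a)) (eD (b, u)) j) then (1 : ℝ) else 0) =
        (if ¬ G.dum (x (eW (wb, a))) ∧ G.π wb b (x (eW (wb, a))) = y (eV (G.nb wb b, j))
          then (1 : ℝ) else 0) := by
      intro wb a b u j
      unfold FF cW cI
      rw [Equiv.symm_apply_apply, Equiv.symm_apply_apply]
    simp only [e2]
    rw [Finset.sum_comm]
    refine sum_congr rfl fun a _ => ?_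
    have e3 : ∀ wb : G.WB, ∑ b : G.IB, ∑ _u : Fin D0, ∑ j : Fin n1,
        (if ¬ G.dum (x (eW (wb, a))) ∧ G.π wb b (x (eW (wb, a))) = y (eV (G.nb wb b, j))
          then (1 : ℝ) else 0) = ∑ j : Fin n1, ∑ _u : Fin D0, ∑ b : G.IB,
        (if ¬ G.dum (x (eW (wb, a))) ∧ G.π wb b (x (eW (wb, a))) = y (eV (G.nb wb b, j))
          then (1 : ℝ) else 0) := by
      intro wb
      rw [sum_congr rfl fun b _ => Finset.sum_comm]
      rw [Finset.sum_comm]
      refine sum_congr rfl fun j _ => ?_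
      rw [Finset.sum_comm]
    rw [sum_congr rfl fun wb _ => e3 wb, Finset.sum_comm]
    refine sum_congr rfl fun j _ => ?_
    rw [Finset.sum_comm]
  rw [h1]
  have h2 : ∀ a : Fin n2, ∀ j : Fin n1, ∑ z : G.WB × G.IB,
        (if ¬ G.dum (x (eW (z.1, a))) ∧ G.π z.1 z.2 (x (eW (z.1, a))) = y (eV (G.nb z.1 z.2, j))
          then (1 : ℝ) else 0) ≤ δ * Fintype.card (G.WB × G.IB) := by
    intro a j
    have h3 := hδ (fun wb => x (eW (wb, a))) (fun v => y (eV (v, j)))
    refine le_trans (le_of_eq ?_) h3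
    rw [card_filter]
    push_cast
    rfl
  refine (sum_le_sum fun a _ => sum_le_sum fun j _ => sum_le_sum fun u _ => h2 a j).trans
    (le_of_eq ?_)
  simp only [sum_const, card_univ, Fintype.card_fin, nsmul_eq_mul, Fintype.card_prod]
  push_cast
  rw [hn, hD]
  ring

/-- the choices for which a labelling of the base part satisfies many edges -/
noncomputable def Bad3 (K : ℕ) : Finset (Fin n → Fin D → Fin n1) :=
  univ.filter fun ψ => ∃ (x : Fin n → G.RC) (y : Fin n → G.LC),
    K ≤ (satB G (cW G eW) (cI G eD) (phi (FF G eV eW eD) ψ) x y).card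

theorem card_Bad3 (hn1 : 1 ≤ n1) (hc K : ℕ) (hδ : G.Val (1 / 2 ^ hc))
    (hlab : Fintype.card G.RC * Fintype.card G.LC ≤ 2 ^ D) (hK : 3 * (n * D) + 3 ≤ hc * K) :
    8 * (Bad3 G eV eW eD K).card ≤ (n1 ^ D) ^ n := by
  have h2c : (0 : ℝ) < 2 ^ hc := by positivity
  have hone : ∀ (x : Fin n → G.RC) (y : Fin n → G.LC),
      ((univ.filter fun ψ : Fin n → Fin D → Fin n1 =>
        K ≤ (satB G (cW G eW) (cI G eD) (phi (FF G eV eW eD) ψ) x y).card).card : ℝ) * (2 ^ hc) ^ K ≤
        ((n1 : ℝ) ^ D) ^ n * 4 ^ (n * D) := by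
    intro x y
    have h := mgf (fun w i j => okB G (cW G eW) (cI G eD) x w i (y (FF G eV eW eD w i j))) (2 ^ hc)
      (one_le_pow₀ (by norm_num)) hn1 (1 / 2 ^ hc * (n * D : ℕ)) (mean G eV eW eD _ hδ x y) K
    refine h.trans ?_
    apply mul_le_mul_of_nonneg_left _ (by positivity)
    have e1 : (2 : ℝ) ^ hc * (1 / 2 ^ hc * (n * D : ℕ)) = (n * D : ℕ) := by
      field_simp
    rw [e1]
    have e2 : Real.exp ((n * D : ℕ) : ℝ) = Real.exp 1 ^ (n * D) := by
      rw [← Real.exp_nat_mul, mul_one]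
    rw [e2]
    exact pow_le_pow_left₀ (Real.exp_pos 1).le (Real.exp_one_lt_d9.le.trans (by norm_num)) _
  have hsub : Bad3 G eV eW eD K ⊆
      (univ : Finset ((Fin n → G.RC) × (Fin n → G.LC))).biUnion fun z =>
        univ.filter fun ψ : Fin n → Fin D → Fin n1 =>
          K ≤ (satB G (cW G eW) (cI G eD) (phi (FF G eV eW eD) ψ) z.1 z.2).card := by
    intro ψ hψ
    obtain ⟨x, y, hxy⟩ := (mem_filter.1 hψ).2
    rw [mem_biUnion]
    exact ⟨(x, y), mem_univ _, mem_filter.2 ⟨mem_univ _, hxy⟩⟩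
  have h1 : ((Bad3 G eV eW eD K).card : ℝ) * (2 ^ hc) ^ K ≤
      (Fintype.card ((Fin n → G.RC) × (Fin n → G.LC)) : ℝ) *
        (((n1 : ℝ) ^ D) ^ n * 4 ^ (n * D)) := by
    have h2 := (card_le_card hsub).trans Finset.card_biUnion_le
    have h3 : ((Bad3 G eV eW eD K).card : ℝ) ≤ ∑ z : (Fin n → G.RC) × (Fin n → G.LC),
        ((univ.filter fun ψ : Fin n → Fin D → Fin n1 =>
          K ≤ (satB G (cW G eW) (cI G eD) (phi (FF G eV eW eD) ψ) z.1 z.2).card).card : ℝ) := by
      exact_mod_cast h2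
    calc ((Bad3 G eV eW eD K).card : ℝ) * (2 ^ hc) ^ K
        ≤ (∑ z : (Fin n → G.RC) × (Fin n → G.LC),
        ((univ.filter fun ψ : Fin n → Fin D → Fin n1 =>
          K ≤ (satB G (cW G eW) (cI G eD) (phi (FF G eV eW eD) ψ) z.1 z.2).card).card : ℝ)) * (2 ^ hc) ^ K :=
          mul_le_mul_of_nonneg_right h3 (by positivity)
      _ = ∑ z : (Fin n → G.RC) × (Fin n → G.LC),
        ((univ.filter fun ψ : Fin n → Fin D → Fin n1 =>
          K ≤ (satB G (cW G eW) (cI G eD) (phi (FF G eV eW eD) ψ) z.1 z.2).card).card : ℝ) * (2 ^ hc) ^ K :=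
          Finset.sum_mul _ _ _
      _ ≤ ∑ _z : (Fin n → G.RC) × (Fin n → G.LC), (((n1 : ℝ) ^ D) ^ n * 4 ^ (n * D)) :=
          sum_le_sum fun z _ => hone z.1 z.2
      _ = _ := by rw [sum_const, card_univ, nsmul_eq_mul]
  have h4 : Fintype.card ((Fin n → G.RC) × (Fin n → G.LC)) ≤ 2 ^ (n * D) := by
    rw [Fintype.card_prod, Fintype.card_fun, Fintype.card_fun, Fintype.card_fin, ← mul_pow,
      mul_comm n D, pow_mul]
    exact Nat.pow_le_pow_left hlab n
  have h5 : (Bad3 G eV eW eD K).card * 2 ^ (hc * K) ≤ 2 ^ (3 * (n * D)) * (n1 ^ D) ^ n := by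
    have h6 : (((Bad3 G eV eW eD K).card * 2 ^ (hc * K) : ℕ) : ℝ) ≤
        ((2 ^ (3 * (n * D)) * (n1 ^ D) ^ n : ℕ) : ℝ) := by
      push_cast
      rw [pow_mul]
      refine h1.trans ?_
      have h7 : (Fintype.card ((Fin n → G.RC) × (Fin n → G.LC)) : ℝ) ≤ 2 ^ (n * D) := by
        exact_mod_cast h4
      calc (Fintype.card ((Fin n → G.RC) × (Fin n → G.LC)) : ℝ) *
          (((n1 : ℝ) ^ D) ^ n * 4 ^ (n * D)) ≤ 2 ^ (n * D) *
          (((n1 : ℝ) ^ D) ^ n * 4 ^ (n * D)) := mul_le_mul_of_nonneg_right h7 (by positivity)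
        _ = 2 ^ (3 * (n * D)) * ((n1 : ℝ) ^ D) ^ n := by
          have h8 : (4 : ℝ) ^ (n * D) = 2 ^ (2 * (n * D)) := by
            rw [pow_mul 2 2 (n * D)]
            norm_num
          rw [h8]
          have h9 : 3 * (n * D) = n * D + 2 * (n * D) := by ring
          rw [h9, pow_add]
          ring
    exact_mod_cast h6
  have h10 : (Bad3 G eV eW eD K).card * 2 ^ (3 * (n * D) + 3) ≤
      2 ^ (3 * (n * D)) * (n1 ^ D) ^ n :=
    (Nat.mul_le_mul_left _ (Nat.pow_le_pow_right (by norm_num) hK)).trans h5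
  refine Nat.le_of_mul_le_mul_left (c := 2 ^ (3 * (n * D))) ?_ (by positivity)
  refine le_trans (le_of_eq ?_) h10
  rw [pow_add]
  ring

end

end Pool.Agent.NH48.SD
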