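import Pool.Agent.NH48.SD.KC
import Pool.Agent.NH48.SD.Defs
import Pool.Agent.NH48.DA.Sol

/-! # The host games have solutions of the relaxations -/

set_option autoImplicit false

open scoped Classical
open Finset

namespace Pool.Agent.NH48.SD

open H589DT
open Pool.Agent.NH48.DA (gg Good undV undW undV_some undW_some undV_none undW_none LinSol BlpAip
  cmPQ fib_sum fib_yw sum_xw sum_yw yw xw)

section lifts

variable {d : ℕ} (G : Base d) {LL T K : Type} [Fintype LL] [Fintype T] [AddCommGroup T]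
  [AddCommGroup K]

/-- extension of weights of the labels of the base game -/
noncomputable def lift (f : G.RC → K) : RT G LL T → K
  | Sum.inl _ => 0
  | Sum.inr c => if c.2 = 0 then f c.1 else 0

/-- extension of weights of the labels of the base game -/
noncomputable def liftL (f : G.LC → K) : LT G LL T → K
  | Sum.inl _ => 0
  | Sum.inr c => if c.2 = 0 then f c.1 else 0

/-- extension of weights of the labels in the first component -/
def lift1 (f : LL × Fin d → K) : RT G LL T → K
  | Sum.inl m => f m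
  | Sum.inr _ => 0

/-- extension of weights of the labels in the first component -/
def liftL1 (f : LL → K) : LT G LL T → K
  | Sum.inl l => f l
  | Sum.inr _ => 0

variable {G}

theorem sum_lift (f : G.RC → K) : ∑ r : RT G LL T, lift G f r = ∑ c, f c := by
  have h1 : ∑ m : LL × Fin d, lift G f (Sum.inl m : RT G LL T) = 0 := sum_eq_zero fun m _ => rfl
  rw [Fintype.sum_sum_type, h1, zero_add, Fintype.sum_prod_type]
  simp only [lift, Finset.sum_ite_eq', mem_univ, if_true]

theorem sum_liftL (f : G.LC → K) : ∑ r : LT G LL T, liftL G f r = ∑ c, f c := by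
  have h1 : ∑ m : LL, liftL G f (Sum.inl m : LT G LL T) = 0 := sum_eq_zero fun m _ => rfl
  rw [Fintype.sum_sum_type, h1, zero_add, Fintype.sum_prod_type]
  simp only [liftL, Finset.sum_ite_eq', mem_univ, if_true]

theorem sum_lift1 (f : LL × Fin d → K) : ∑ r : RT G LL T, lift1 G f r = ∑ c, f c := by
  rw [Fintype.sum_sum_type]
  simp only [lift1, sum_const_zero, add_zero]

theorem sum_liftL1 (f : LL → K) : ∑ r : LT G LL T, liftL1 G f r = ∑ c, f c := by
  rw [Fintype.sum_sum_type]
  simp only [liftL1, sum_const_zero, add_zero]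

theorem fib_lift (cm : ℕ → LL × Fin d → LL) (x : Idx G T) (a : LT G LL T) (f : G.RC → K)
    (g : G.LC → K) (hf : ∀ c, G.dum c → f c = 0)
    (hg : ∀ l, ∑ c with G.π x.2.1 x.2.2.1 c = l, f c = g l)
    [DecidablePred fun r => emap G cm x r = a] :
    ∑ r with emap G cm x r = a, lift G f r = liftL G g a := by
  rw [sum_filter, Fintype.sum_sum_type]
  have h1 : ∑ m : LL × Fin d, (if emap G cm x (Sum.inl m) = a then
      lift G f (Sum.inl m : RT G LL T) else 0) = 0 := by
    refine sum_eq_zero fun m _ => ?_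
    split_ifs <;> rfl
  rw [h1, zero_add, Fintype.sum_prod_type]
  have h2 : ∀ c : G.RC, ∑ i : T, (if emap G cm x (Sum.inr (c, i)) = a then
      lift G f (Sum.inr (c, i) : RT G LL T) else 0) =
      if emap G cm x (Sum.inr (c, 0)) = a then f c else 0 := by
    intro c
    rw [Finset.sum_eq_single (0 : T)]
    · simp only [lift, if_true]
    · intro i _ hi
      simp only [lift, hi, if_false, ite_self]
    · intro h
      exact absurd (mem_univ _) h
  rw [sum_congr rfl fun c _ => h2 c]
  rcases a with l | ⟨l, j⟩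
  · refine sum_eq_zero fun c _ => if_neg ?_
    simp [emap]
  · show _ = if j = 0 then g l else 0
    by_cases hj : j = 0
    · rw [if_pos hj, ← hg l, sum_filter]
      refine sum_congr rfl fun c _ => ?_
      by_cases hc : G.dum c
      · rw [hf c hc]
        simp
      · by_cases h3 : G.π x.2.1 x.2.2.1 c = l
        · rw [if_pos h3, if_pos]
          simp only [emap, if_neg hc, h3, hj]
        · rw [if_neg h3, if_neg]
          intro h4
          have h5 := Sum.inr_injective h4
          rw [Prod.mk.injEq] at h5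
          exact h3 h5.1
    · rw [if_neg hj]
      refine sum_eq_zero fun c _ => ?_
      by_cases hc : G.dum c
      · rw [hf c hc]
        simp
      · rw [if_neg]
        intro h4
        have h5 := Sum.inr_injective h4
        rw [Prod.mk.injEq, if_neg hc] at h5
        exact hj h5.2.symm

theorem fib_lift1 (cm : ℕ → LL × Fin d → LL) (x : Idx G T) (a : LT G LL T) (f : LL × Fin d → K)
    (g : LL → K) [∀ l, DecidablePred fun m => cm x.1 m = l]
    (hg : ∀ l, ∑ m with cm x.1 m = l, f m = g l)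
    [DecidablePred fun r => emap G cm x r = a] :
    ∑ r with emap G cm x r = a, lift1 G f r = liftL1 G g a := by
  rw [sum_filter, Fintype.sum_sum_type]
  have h1 : ∑ m : G.RC × T, (if emap G cm x (Sum.inr m) = a then
      lift1 G f (Sum.inr m : RT G LL T) else 0) = 0 := by
    refine sum_eq_zero fun m _ => ?_
    split_ifs <;> rfl
  rw [h1, add_zero]
  rcases a with l | l
  · show _ = g l
    rw [← hg l, sum_filter]
    refine sum_congr rfl fun m _ => ?_
    by_cases h3 : cm x.1 m = l
    · rw [if_pos h3, if_pos (by simp only [emap, h3])]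
      rfl
    · rw [if_neg h3, if_neg]
      intro h4
      exact h3 (Sum.inl_injective h4)
  · refine sum_eq_zero fun m _ => if_neg ?_
    simp [emap]

theorem fibc_lift (cm : ℕ → LL × Fin d → LL) (x : Idx G T)
    (a : Fin (Fintype.card (LT G LL T))) (f : G.RC → K)
    (g : G.LC → K) (hf : ∀ c, G.dum c → f c = 0)
    (hg : ∀ l, ∑ c with G.π x.2.1 x.2.2.1 c = l, f c = g l) :
    ∑ b with cmap G cm x b = a, lift G f ((eR G LL T).symm b) =
      liftL G g ((eL G LL T).symm a) := by
  rw [sum_cmap]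
  exact fib_lift cm x _ f g hf hg

theorem fibc_lift1 (cm : ℕ → LL × Fin d → LL) (x : Idx G T)
    (a : Fin (Fintype.card (LT G LL T))) (f : LL × Fin d → K)
    (g : LL → K) [∀ l, DecidablePred fun m => cm x.1 m = l]
    (hg : ∀ l, ∑ m with cm x.1 m = l, f m = g l) :
    ∑ b with cmap G cm x b = a, lift1 G f ((eR G LL T).symm b) =
      liftL1 G g ((eL G LL T).symm a) := by
  rw [sum_cmap]
  exact fib_lift1 cm x _ f g hg

theorem lift_orth {DV : Type} [Fintype DV] (f : G.RC → DV → ℝ)
    (hf : ∀ c c', c ≠ c' → f c ⬝ᵥ f c' = 0) (r r' : RT G LL T) (h : r ≠ r') :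
    lift G f r ⬝ᵥ lift G f r' = 0 := by
  rcases r with r | ⟨c, i⟩
  · exact zero_dotProduct _
  · rcases r' with r' | ⟨c', i'⟩
    · exact dotProduct_zero _
    · show (if i = 0 then f c else 0) ⬝ᵥ (if i' = 0 then f c' else 0) = 0
      by_cases hi : i = 0
      · by_cases hi' : i' = 0
        · rw [if_pos hi, if_pos hi']
          apply hf
          rintro rfl
          exact h (by rw [hi, hi'])
        · rw [if_neg hi']
          exact dotProduct_zero _
      · rw [if_neg hi]
        exact zero_dotProduct _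

theorem liftL_orth {DV : Type} [Fintype DV] (f : G.LC → DV → ℝ)
    (hf : ∀ c c', c ≠ c' → f c ⬝ᵥ f c' = 0) (r r' : LT G LL T) (h : r ≠ r') :
    liftL G f r ⬝ᵥ liftL G f r' = 0 := by
  rcases r with r | ⟨c, i⟩
  · exact zero_dotProduct _
  · rcases r' with r' | ⟨c', i'⟩
    · exact dotProduct_zero _
    · show (if i = 0 then f c else 0) ⬝ᵥ (if i' = 0 then f c' else 0) = 0
      by_cases hi : i = 0
      · by_cases hi' : i' = 0
        · rw [if_pos hi, if_pos hi']
          apply hf
          rintro rfl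
          exact h (by rw [hi, hi'])
        · rw [if_neg hi']
          exact dotProduct_zero _
      · rw [if_neg hi]
        exact zero_dotProduct _

theorem lift_zero {K' : Type} [AddCommGroup K'] (f : G.RC → K) (f' : G.RC → K')
    (hf : ∀ c, f c = 0 → f' c = 0) (r : RT G LL T) (h : lift G f r = 0) : lift G f' r = 0 := by
  rcases r with r | ⟨c, i⟩
  · rfl
  · change (if i = 0 then f c else 0) = 0 at h
    show (if i = 0 then f' c else 0) = 0
    by_cases hi : i = 0
    · rw [if_pos hi] at h ⊢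
      exact hf c h
    · rw [if_neg hi]

theorem liftL_zero {K' : Type} [AddCommGroup K'] (f : G.LC → K) (f' : G.LC → K')
    (hf : ∀ c, f c = 0 → f' c = 0) (r : LT G LL T) (h : liftL G f r = 0) : liftL G f' r = 0 := by
  rcases r with r | ⟨c, i⟩
  · rfl
  · change (if i = 0 then f c else 0) = 0 at h
    show (if i = 0 then f' c else 0) = 0
    by_cases hi : i = 0
    · rw [if_pos hi] at h ⊢
      exact hf c h
    · rw [if_neg hi]

theorem lift1_nonneg (c : ℚ) (hc : 0 ≤ c) (r : RT G LL T) :
    0 ≤ lift1 G (fun _ => c) r := by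
  rcases r with r | r
  · exact hc
  · exact le_rfl

theorem liftL1_nonneg (c : ℚ) (hc : 0 ≤ c) (r : LT G LL T) :
    0 ≤ liftL1 G (fun _ => c) r := by
  rcases r with r | r
  · exact hc
  · exact le_rfl

theorem lift1_zero (c : ℚ) (hc : 0 < c) (f : LL × Fin d → ℤ) (r : RT G LL T)
    (h : lift1 G (fun _ => c) r = 0) : lift1 G f r = 0 := by
  rcases r with r | r
  · exact absurd h hc.ne'
  · rfl

theorem liftL1_zero (c : ℚ) (hc : 0 < c) (f : LL → ℤ) (r : LT G LL T)
    (h : liftL1 G (fun _ => c) r = 0) : liftL1 G f r = 0 := by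
  rcases r with r | r
  · exact absurd h hc.ne'
  · rfl

end lifts

section

variable {d : ℕ} {G : Base d} {LL T : Type} [Fintype LL] [Fintype T] [AddCommGroup T]
  {n D m N C : ℕ}

/-- the class of a left vertex of the host -/
noncomputable def clV (cv : Fin n → G.VB) (ιV : Option (Fin n × Fin m) ↪ Fin N) (v : Fin N) :
    G.VB :=
  match undV ιV v with
  | some (Sum.inl u) => cv u
  | _ => G.nb G.w0 G.b0

/-- the class of a right vertex of the host -/
noncomputable def clW (cw : Fin n → G.WB) (ιW : Option (Fin n × Fin m) ↪ Fin N) (w : Fin N) :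
    G.WB :=
  match undW ιW w with
  | some (Sum.inr u) => cw u
  | _ => G.w0

theorem clV_some (cv : Fin n → G.VB) (ιV : Option (Fin n × Fin m) ↪ Fin N) (q : Fin n × Fin m) :
    clV cv ιV (ιV (some q)) = cv q.1 := by
  unfold clV
  rw [undV_some]

theorem clW_some (cw : Fin n → G.WB) (ιW : Option (Fin n × Fin m) ↪ Fin N) (q : Fin n × Fin m) :
    clW cw ιW (ιW (some q)) = cw q.1 := by
  unfold clW
  rw [undW_some]

theorem clV_none (cv : Fin n → G.VB) (ιV : Option (Fin n × Fin m) ↪ Fin N) :
    clV cv ιV (ιV none) = G.nb G.w0 G.b0 := by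
  unfold clV
  rw [undV_none]

theorem clW_none (cw : Fin n → G.WB) (ιW : Option (Fin n × Fin m) ↪ Fin N) :
    clW cw ιW (ιW none) = G.w0 := by
  unfold clW
  rw [undW_none]

theorem sum_GX (G : Base d) : ∑ l, G.X l = 1 := by
  rw [← G.Ys, ← Finset.sum_fiberwise (s := univ) (g := G.π G.w0 G.b0) (f := G.Y)]
  exact sum_congr rfl fun l _ => (G.XY G.w0 G.b0 l).symm

/-- the host games are accepted by SDA -/
theorem host_sda {cm : ℕ → LL × Fin d → LL}
    {hinj : ∀ t j l l', cm t (l, j) = cm t (l', j) → l = l'}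
    {cw : Fin n → G.WB} {ci : Fin D → G.IB} {τ : Fin n → Fin D → T}
    {φ : Fin n → Fin D → Fin n} {B : Finset (Fin n)} {s : Fin n → Fin D → Fin C}
    {ιV ιW : Option (Fin n × Fin m) ↪ Fin N}
    (hφ : ∀ w i j, w ∉ B → φ w i = φ w j → i = j) (cv : Fin n → G.VB)
    (hcv : ∀ w i, cv (φ w i) = G.nb (cw w) (ci i))
    (H : Finset (EE D B × Fin m × Fin m)) :
    Sda (hostInst cm hinj cw ci τ φ B s ιV ιW H) := by
  have hcl : ∀ v w, (hostInst cm hinj cw ci τ φ B s ιV ιW H).adj v w →
      (hidx cw ci τ φ B s ιV ιW v w).2.1 = clW cw ιW w ∧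
      clV cv ιV v = G.nb (clW cw ιW w) (hidx cw ci τ φ B s ιV ιW v w).2.2.1 := by
    rintro v w (⟨rfl, rfl⟩ | ⟨c, hc, hcv', hcw'⟩)
    · rw [hidx_none, clW_none, clV_none]
      exact ⟨rfl, rfl⟩
    · rw [hidx_of_isEdge hφ ⟨hcv', hcw'⟩, hcv', hcw', clW_some, clV_some]
      exact ⟨rfl, hcv _ _⟩
  have hY0 : ∀ c, G.dum c → G.Y c = 0 := fun c hc => G.xY G.w0 c (G.xd G.w0 c hc)
  refine ⟨G.DV, inferInstance, G.z,
    fun v a => liftL G (G.y (clV cv ιV v)) ((eL G LL T).symm a),
    fun w b => lift G (G.x (clW cw ιW w)) ((eR G LL T).symm b),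
    fun _ a => liftL G G.X ((eL G LL T).symm a),
    fun _ b => lift G G.Y ((eR G LL T).symm b),
    ⟨G.zz, ?_, ?_, ?_, ?_, ?_⟩, ⟨?_, ?_, ?_⟩, ?_, ?_⟩
  · intro v
    rw [Equiv.sum_comp (eL G LL T).symm (liftL G (G.y (clV cv ιV v))), sum_liftL, G.ys]
  · intro w
    rw [Equiv.sum_comp (eR G LL T).symm (lift G (G.x (clW cw ιW w))), sum_lift, G.xs]
  · intro v a a' h
    exact liftL_orth _ (G.yo _) _ _ fun h' => h ((eL G LL T).symm.injective h')
  · intro w b b' h
    exact lift_orth _ (G.xo _) _ _ fun h' => h ((eR G LL T).symm.injective h')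
  · intro v w hadj a
    obtain ⟨h1, h2⟩ := hcl v w hadj
    show ∑ b with cmap G cm (hidx cw ci τ φ B s ιV ιW v w) b = a,
      lift G (G.x (clW cw ιW w)) ((eR G LL T).symm b) = _
    apply fibc_lift
    · exact G.xd _
    · intro l
      rw [h1, h2]
      exact G.xy _ _ l
  · intro v
    rw [Equiv.sum_comp (eL G LL T).symm (liftL G G.X), sum_liftL, sum_GX]
  · intro w
    rw [Equiv.sum_comp (eR G LL T).symm (lift G G.Y), sum_lift, G.Ys]
  · intro v w _ a
    show ∑ b with cmap G cm (hidx cw ci τ φ B s ιV ιW v w) b = a,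
      lift G G.Y ((eR G LL T).symm b) = _
    apply fibc_lift
    · exact hY0
    · intro l
      exact G.XY _ _ l
  · intro v a h
    exact liftL_zero _ _ (G.yX _) _ h
  · intro w b h
    exact lift_zero _ _ (G.xY _) _ h

end

section

variable {d : ℕ} {G : Base d} {T : Type} [Fintype T] [AddCommGroup T] {p q n D m N C : ℕ}

/-- the host games are accepted by BLP+AIP -/
theorem host_blpAip [Fact p.Prime] [Fact q.Prime] (hpq : p ≠ q) (hd : 2 ≤ d)
    {hinj : ∀ t j l l', cmPQ p q d t (l, j) = cmPQ p q d t (l', j) → l = l'}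
    {cw : Fin n → G.WB} {ci : Fin D → G.IB} {τ : Fin n → Fin D → T}
    {φ : Fin n → Fin D → Fin n} {B : Finset (Fin n)} {s : Fin n → Fin D → Fin C}
    {ιV ιW : Option (Fin n × Fin m) ↪ Fin N} (H : Finset (EE D B × Fin m × Fin m)) :
    BlpAip (hostInst (cmPQ p q d) hinj cw ci τ φ B s ιV ιW H) := by
  have hcop : Nat.Coprime p q := (Nat.coprime_primes Fact.out Fact.out).2 hpq
  obtain ⟨u, v, huv⟩ : ∃ u v : ℤ, u * p + v * q = 1 := by
    have h := Nat.isCoprime_iff_coprime.2 hcop
    obtain ⟨a, b, hab⟩ := h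
    exact ⟨a, b, hab⟩
  have hp1 : (0 : ℚ) < p := by exact_mod_cast (Fact.out : p.Prime).pos
  have hq1 : (0 : ℚ) < q := by exact_mod_cast (Fact.out : q.Prime).pos
  have hd1 : (0 : ℚ) < d := by exact_mod_cast (by omega : 0 < d)
  have hd0 : (d : ℚ) ≠ 0 := hd1.ne'
  have hp0 : (p : ℚ) ≠ 0 := hp1.ne'
  have hq0 : (q : ℚ) ≠ 0 := hq1.ne'
  have hcL : Fintype.card (ZMod p × ZMod q) = p * q := by
    rw [Fintype.card_prod, ZMod.card, ZMod.card]
  have hpos1 : (0 : ℚ) < 1 / (p * q) := by positivity
  have hpos2 : (0 : ℚ) < 1 / (d * (p * q)) := by positivity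
  refine ⟨fun _ a => liftL1 G (fun _ => 1 / (p * q)) ((eL G _ T).symm a),
    fun _ b => lift1 G (fun _ => 1 / (d * (p * q))) ((eR G _ T).symm b),
    fun _ a => liftL1 G (xw p q u v) ((eL G _ T).symm a),
    fun _ b => lift1 G (yw p q d u v) ((eR G _ T).symm b),
    ⟨?_, ?_, ?_⟩, ⟨?_, ?_, ?_⟩, ?_, ?_, ?_, ?_⟩
  · intro v
    rw [Equiv.sum_comp (eL G (ZMod p × ZMod q) T).symm (liftL1 G fun _ => 1 / ((p : ℚ) * q)),
      sum_liftL1, sum_const, card_univ, hcL, nsmul_eq_mul]
    push_cast
    field_simp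
  · intro w
    rw [Equiv.sum_comp (eR G (ZMod p × ZMod q) T).symm
      (lift1 G fun _ => 1 / ((d : ℚ) * (p * q))), sum_lift1, sum_const, card_univ,
      Fintype.card_prod, hcL, Fintype.card_fin, nsmul_eq_mul]
    push_cast
    field_simp
  · intro v' w _ a
    show ∑ b with cmap G (cmPQ p q d) (hidx cw ci τ φ B s ιV ιW v' w) b = a,
      lift1 G (fun _ => 1 / ((d : ℚ) * (p * q))) ((eR G (ZMod p × ZMod q) T).symm b) = _
    apply fibc_lift1
    intro l
    rw [fib_sum]
    simp only [ite_self, sum_const, card_univ, Fintype.card_fin, nsmul_eq_mul]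
    field_simp
  · intro _
    rw [Equiv.sum_comp (eL G (ZMod p × ZMod q) T).symm (liftL1 G (xw p q u v)), sum_liftL1]
    exact sum_xw (p := p) (q := q) u v huv
  · intro _
    rw [Equiv.sum_comp (eR G (ZMod p × ZMod q) T).symm (lift1 G (yw p q d u v)), sum_lift1]
    exact sum_yw (p := p) (q := q) hd u v huv
  · intro v' w _ a
    show ∑ b with cmap G (cmPQ p q d) (hidx cw ci τ φ B s ιV ιW v' w) b = a,
      lift1 G (yw p q d u v) ((eR G (ZMod p × ZMod q) T).symm b) = _
    apply fibc_lift1
    intro l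
    exact fib_yw hd _ u v l
  · intro v' a
    exact liftL1_nonneg _ hpos1.le _
  · intro w b
    exact lift1_nonneg _ hpos2.le _
  · intro v' a h
    exact liftL1_zero _ hpos1 _ _ h
  · intro w b h
    exact lift1_zero _ hpos2 _ _ h

end

end Pool.Agent.NH48.SD
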